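import Pool.Agent.H6.CP.Low

set_option autoImplicit false

set_option linter.unusedSectionVars false

/-!
# The conjecture C⁺ on the classes orthogonal to the classes coming from dimension `≤ 1`
-/

namespace Pool.Agent.H6.CP

variable {K : Type} [Field K]

namespace Theory

variable {W : Theory K}

/-- the homogeneous components of a vector orthogonal to `Part e X` -/
theorem exists_comp {e : ℕ} {X : W.Var} {y : W.V X}
    (hy : ∀ l ∈ W.Part e X, W.pair X l y = 0) :
    ∃ (s : Finset ℤ) (f : ℤ → W.V X), y = ∑ j ∈ s, f j ∧ (∀ j, f j ∈ W.gr X j) ∧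
      ∀ j, ∀ l ∈ W.Part e X, W.pair X l (f j) = 0 := by
  classical
  letI := (W.internal X).chooseDecomposition
  have h1 := DirectSum.sum_support_decompose (W.gr X) y
  refine ⟨_, fun j => (DirectSum.decompose (W.gr X) y j : W.V X), h1.symm,
    fun j => SetLike.coe_mem _, ?_⟩
  intro j l hl
  induction hl using Submodule.span_induction with
  | mem l hl =>
    have hl0 := hl
    obtain ⟨C, hC, m, α, hα, x, hx, rfl⟩ := hl
    have h2 := W.deg C X m α hα e x hx
    by_cases hj : (e : ℤ) + 2 * ((W.dim X : ℤ) - m) + j = 2 * W.dim X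
    · have h3 : W.pair X (α x) y = W.pair X (α x) (DirectSum.decompose (W.gr X) y j : W.V X) := by
        conv_lhs => rw [← h1]
        rw [map_sum]
        rw [Finset.sum_eq_single j]
        · intro k _ hk
          exact W.pair_deg X _ k (by omega) _ h2 _ (SetLike.coe_mem _)
        · intro hj'
          rw [DFinsupp.notMem_support_iff] at hj'
          rw [hj']
          simp
      rw [← h3]
      exact hy _ (Submodule.subset_span hl0)
    · exact W.pair_deg X _ j hj _ h2 _ (SetLike.coe_mem _)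
  | zero => rw [map_zero, LinearMap.zero_apply]
  | add a b _ _ ha hb => rw [map_add, LinearMap.add_apply, ha, hb, add_zero]
  | smul q a _ ha => rw [map_smul, LinearMap.smul_apply, ha, smul_zero]

/-- the pairing identifies the cohomology with its dual -/
theorem exists_pair (X : W.Var) (φ : W.V X →ₗ[K] K) : ∃ y, ∀ x, φ x = W.pair X x y := by
  have hinj : Function.Injective (LinearMap.flip (W.pair X)) := by
    rw [← LinearMap.ker_eq_bot, LinearMap.ker_eq_bot']
    intro y hy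
    apply W.pair_right
    intro x
    have := LinearMap.congr_fun hy x
    rwa [LinearMap.flip_apply] at this
  have hs := (LinearMap.injective_iff_surjective_of_finrank_eq_finrank
    (f := LinearMap.flip (W.pair X)) (Subspace.dual_finrank_eq (K := K) (V := W.V X)).symm).1 hinj
  obtain ⟨y, hy⟩ := hs φ
  refine ⟨y, fun x => ?_⟩
  rw [← hy, LinearMap.flip_apply]

theorem dual_one {e : ℕ} {X : W.Var} {c : W.V X →ₗ[K] W.V X} (hc : c ∈ W.cyc X X (W.dim X))
    (hk : W.KO e c) (h : ∀ i : ℤ, Even (i - e) → ∀ x ∈ W.gr X i, x - c x ∈ W.Part e X) :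
    ∃ c' ∈ W.cyc X X (W.dim X), W.KO e c' ∧ ∀ i : ℤ, Even (i - e) → ∀ x ∈ W.gr X i,
      (∀ l ∈ W.Part e X, W.pair X l x = 0) → c' x = x := by
  obtain ⟨c', hc', h1, _⟩ := W.adj X X _ c hc
  refine ⟨c', hc', adj_KO hc hk h1, fun j hj y hy hp => ?_⟩
  rw [← sub_eq_zero, ← neg_eq_zero, neg_sub]
  apply pair_ext
  intro i x hx
  rcases Int.even_or_odd (i - e) with hi | hi
  · rw [map_sub, ← h1, ← LinearMap.sub_apply, ← map_sub]
    exact hp _ (h i hi x hx)
  · have h2 : W.pair X x y = 0 := by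
      refine W.pair_deg X i j ?_ x hx y hy
      obtain ⟨a, ha⟩ := hi
      obtain ⟨b, hb⟩ := hj
      omega
    rw [map_sub, ← h1, hk i hi x hx, h2]
    simp

theorem dual_two {e : ℕ} {X : W.Var} {c : W.V X →ₗ[K] W.V X} (hc : c ∈ W.cyc X X (W.dim X))
    (hk : W.KO e c) (h : ∀ i : ℤ, Even (i - e) → ∀ x ∈ W.gr X i,
      (∀ l ∈ W.Part e X, W.pair X l x = 0) → c x = x) :
    ∃ c' ∈ W.cyc X X (W.dim X), W.KO e c' ∧
      ∀ i : ℤ, Even (i - e) → ∀ x ∈ W.gr X i, x - c' x ∈ W.Part e X := by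
  obtain ⟨c', hc', h1, h2⟩ := W.adj X X _ c hc
  refine ⟨c', hc', adj_KO hc hk h1, fun i hi x hx => ?_⟩
  by_contra hcon
  obtain ⟨φ, hφ, hφ'⟩ := Submodule.exists_dual_map_eq_bot_of_notMem hcon inferInstance
  obtain ⟨y, hy⟩ := exists_pair X φ
  have hperp : ∀ l ∈ W.Part e X, W.pair X l y = 0 := by
    intro l hl
    rw [← hy]
    have h3 : φ l ∈ Submodule.map φ (W.Part e X) := Submodule.mem_map_of_mem hl
    rw [hφ', Submodule.mem_bot] at h3
    exact h3
  obtain ⟨s, f, hf, hfg, hfp⟩ := exists_comp hperp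
  apply hφ
  rw [hy, hf, map_sum]
  refine Finset.sum_eq_zero fun j _ => ?_
  have hv : x - c' x ∈ W.gr X i := by
    refine Submodule.sub_mem _ hx ?_
    have := W.deg X X _ c' hc' i x hx
    simpa using this
  by_cases hj : i + j = 2 * (W.dim X : ℤ)
  · have hje : Even (j - e) := by
      obtain ⟨a, ha⟩ := hi
      exact ⟨W.dim X - e - a, by omega⟩
    rw [map_sub, LinearMap.sub_apply, h2, h j hje _ (hfg j) (hfp j), sub_self]
  · exact W.pair_deg X i j hj _ hv _ (hfg j)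

theorem even_zero {i : ℤ} : Even (i - (0 : ℕ)) ↔ Even i := by simp

theorem even_one {i : ℤ} : Even (i - (1 : ℕ)) ↔ Odd i := by
  constructor
  · rintro ⟨k, hk⟩
    push_cast at hk
    exact ⟨k, by omega⟩
  · rintro ⟨k, hk⟩
    push_cast
    exact ⟨k, by omega⟩

variable [CharZero K]

theorem tfae_perp (hW : W.Low) (X : W.Var) :
    [W.Cplus X,
      ∃ c ∈ W.cyc X X (W.dim X), W.KillsEven c ∧
        ∀ i, Odd i → ∀ x ∈ W.gr X i, x - c x ∈ W.Part 1 X,
      ∃ c ∈ W.cyc X X (W.dim X), W.KillsEven c ∧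
        ∀ i, Odd i → ∀ x ∈ W.gr X i, (∀ l ∈ W.Part 1 X, W.pair X l x = 0) → c x = x,
      ∃ b ∈ W.cyc X X (W.dim X), W.KillsOdd b ∧
        ∀ i, Even i → ∀ x ∈ W.gr X i, x - b x ∈ W.Part 0 X,
      ∃ b ∈ W.cyc X X (W.dim X), W.KillsOdd b ∧
        ∀ i, Even i → ∀ x ∈ W.gr X i, (∀ l ∈ W.Part 0 X, W.pair X l x = 0) → b x = x].TFAE := by
  have h0 := tfae_low hW X
  tfae_have 1 ↔ 2 := h0.out 0 1
  tfae_have 1 ↔ 4 := h0.out 0 2
  tfae_have 2 → 3 := by
    rintro ⟨c, hc, h1, h2⟩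
    obtain ⟨c', hc', h3, h4⟩ := dual_one hc ((KO_one c).2 h1)
      (fun i hi x hx => h2 i (even_one.1 hi) x hx)
    exact ⟨c', hc', (KO_one c').1 h3, fun i hi x hx => h4 i (even_one.2 hi) x hx⟩
  tfae_have 3 → 2 := by
    rintro ⟨c, hc, h1, h2⟩
    obtain ⟨c', hc', h3, h4⟩ := dual_two hc ((KO_one c).2 h1)
      (fun i hi x hx => h2 i (even_one.1 hi) x hx)
    exact ⟨c', hc', (KO_one c').1 h3, fun i hi x hx => h4 i (even_one.2 hi) x hx⟩
  tfae_have 4 → 5 := by
    rintro ⟨c, hc, h1, h2⟩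
    obtain ⟨c', hc', h3, h4⟩ := dual_one hc ((KO_zero c).2 h1)
      (fun i hi x hx => h2 i (even_zero.1 hi) x hx)
    exact ⟨c', hc', (KO_zero c').1 h3, fun i hi x hx => h4 i (even_zero.2 hi) x hx⟩
  tfae_have 5 → 4 := by
    rintro ⟨c, hc, h1, h2⟩
    obtain ⟨c', hc', h3, h4⟩ := dual_two hc ((KO_zero c).2 h1)
      (fun i hi x hx => h2 i (even_zero.1 hi) x hx)
    exact ⟨c', hc', (KO_zero c').1 h3, fun i hi x hx => h4 i (even_zero.2 hi) x hx⟩
  tfae_finish

end Theory

end Pool.Agent.H6.CP
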