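import Pool.Agent.H6.CP.Zero

set_option autoImplicit false

set_option linter.unusedSectionVars false

/-!
# Decompositions of the diagonal and the conjecture C⁺
-/

namespace Pool.Agent.H6.CP

variable {K : Type} [Field K]

namespace Theory

variable (W : Theory K)

/-- generated by the correspondences `g ∘ u ∘ h` of `X` with `h ∈ cyc X S (dim S)`,
`u ∈ cyc S T (dim X)`, `g ∈ cyc T X (dim T)`, where either `2 dim S ≤ dim X + e` or
`dim S + dim T ≤ dim X + e`. For smooth proper varieties these are the classes of the cycles of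
dimension `dim X` on `X × X` which are supported on the products `A × B` of closed subsets of `X`
with `2 dim A ≤ dim X + e` or `dim A + dim B ≤ dim X + e` -/
def Thin (e : ℕ) (X : W.Var) : AddSubgroup (W.V X →ₗ[K] W.V X) :=
  AddSubgroup.closure {f | ∃ S T : W.Var,
    (2 * W.dim S ≤ W.dim X + e ∨ W.dim S + W.dim T ≤ W.dim X + e) ∧
    ∃ h ∈ W.cyc X S (W.dim S), ∃ u ∈ W.cyc S T (W.dim X), ∃ g ∈ W.cyc T X (W.dim T),
    f = g ∘ₗ (u ∘ₗ h)}

/-- the part of `Thin` with `2 dim S ≤ dim X + e` -/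
def ThinL (e : ℕ) (X : W.Var) : AddSubgroup (W.V X →ₗ[K] W.V X) :=
  AddSubgroup.closure {f | ∃ S T : W.Var, 2 * W.dim S ≤ W.dim X + e ∧
    ∃ h ∈ W.cyc X S (W.dim S), ∃ u ∈ W.cyc S T (W.dim X), ∃ g ∈ W.cyc T X (W.dim T),
    f = g ∘ₗ (u ∘ₗ h)}

/-- the part of `Thin` with `dim S + dim T ≤ dim X + e` and `n ≤ dim T` -/
def ThinB (e n : ℕ) (X : W.Var) : AddSubgroup (W.V X →ₗ[K] W.V X) :=
  AddSubgroup.closure {f | ∃ S T : W.Var, W.dim S + W.dim T ≤ W.dim X + e ∧ n ≤ W.dim T ∧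
    ∃ h ∈ W.cyc X S (W.dim S), ∃ u ∈ W.cyc S T (W.dim X), ∃ g ∈ W.cyc T X (W.dim T),
    f = g ∘ₗ (u ∘ₗ h)}

variable {W}

theorem thin_le (e : ℕ) (X : W.Var) : W.Thin e X ≤ W.ThinL e X ⊔ W.ThinB e 0 X := by
  rw [Thin, AddSubgroup.closure_le]
  rintro f ⟨S, T, h1 | h1, h2⟩
  · exact AddSubgroup.mem_sup_left (AddSubgroup.subset_closure ⟨S, T, h1, h2⟩)
  · exact AddSubgroup.mem_sup_right (AddSubgroup.subset_closure ⟨S, T, h1, Nat.zero_le _, h2⟩)

theorem gen_cyc {X S T : W.Var} {h : W.V X →ₗ[K] W.V S} (hh : h ∈ W.cyc X S (W.dim S))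
    {u : W.V S →ₗ[K] W.V T} (hu : u ∈ W.cyc S T (W.dim X))
    {g : W.V T →ₗ[K] W.V X} (hg : g ∈ W.cyc T X (W.dim T)) :
    g ∘ₗ (u ∘ₗ h) ∈ W.cyc X X (W.dim X) := by
  have h1 := W.comp X S T _ _ h hh u hu
  have h2 := W.comp X T X _ _ _ h1 g hg
  have h3 : (W.dim S : ℤ) + W.dim X - W.dim S + W.dim T - W.dim T = W.dim X := by ring
  rwa [h3] at h2

theorem thinL_cyc (e : ℕ) (X : W.Var) : W.ThinL e X ≤ W.cyc X X (W.dim X) := by
  rw [ThinL, AddSubgroup.closure_le]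
  rintro f ⟨S, T, _, h, hh, u, hu, g, hg, rfl⟩
  exact gen_cyc hh hu hg

theorem thinB_cyc (e n : ℕ) (X : W.Var) : W.ThinB e n X ≤ W.cyc X X (W.dim X) := by
  rw [ThinB, AddSubgroup.closure_le]
  rintro f ⟨S, T, _, _, h, hh, u, hu, g, hg, rfl⟩
  exact gen_cyc hh hu hg

/-- `alg` is a two-sided ideal -/
theorem alg_left {X : W.Var} {a r : W.V X →ₗ[K] W.V X} (ha : a ∈ W.alg X)
    (hr : r ∈ W.cyc X X (W.dim X)) : r ∘ₗ a ∈ W.alg X := by
  obtain ⟨e, he, h1, h2⟩ := ha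
  refine ⟨r ∘ₗ e, comp_mem he hr, fun i hi x hx => ?_, fun i hi x hx => ?_⟩
  · rw [LinearMap.comp_apply, LinearMap.comp_apply, h1 i hi x hx]
  · rw [LinearMap.comp_apply, h2 i hi x hx, map_zero]

theorem alg_right {X : W.Var} {a r : W.V X →ₗ[K] W.V X} (ha : a ∈ W.alg X)
    (hr : r ∈ W.cyc X X (W.dim X)) : a ∘ₗ r ∈ W.alg X := by
  obtain ⟨e, he, h1, h2⟩ := ha
  refine ⟨e ∘ₗ r, comp_mem hr he, fun i hi x hx => ?_, fun i hi x hx => ?_⟩
  · rw [LinearMap.comp_apply, LinearMap.comp_apply,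
      h1 _ (even_shift hi) _ (W.deg X X _ r hr i x hx)]
  · rw [LinearMap.comp_apply, h2 _ (odd_shift hi) _ (W.deg X X _ r hr i x hx)]

/-- a correspondence which factors through a cycle of dimension at most `e` -/
theorem mid (hA : W.Alterations) {e : ℕ} (hlow : ∀ T : W.Var, W.dim T ≤ e → W.Cplus T)
    {X A B : W.Var} {m p q : ℤ} (hm : m ≤ e) {s : W.V A →ₗ[K] W.V B} (hs : s ∈ W.cyc A B m)
    {h : W.V X →ₗ[K] W.V A} (hh : h ∈ W.cyc X A p) {g : W.V B →ₗ[K] W.V X}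
    (hg : g ∈ W.cyc B X q) (hpq : p + m - W.dim A + q - W.dim B = W.dim X) :
    g ∘ₗ (s ∘ₗ h) ∈ W.alg X := by
  have key : ∀ s ∈ AddSubgroup.closure {f : W.V A →ₗ[K] W.V B | ∃ T : W.Var,
      (W.dim T : ℤ) = m ∧ ∃ h ∈ W.cyc A T m, ∃ g ∈ W.cyc T B m, f = g ∘ₗ h},
      g ∘ₗ (s ∘ₗ h) ∈ W.alg X := by
    intro s hs
    induction hs using AddSubgroup.closure_induction with
    | mem f hf =>
      obtain ⟨T, hT, v, hv, u, hu, rfl⟩ := hf
      have h5 := W.comp X A T _ _ h hh v hv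
      have h6 := W.comp T B X _ _ u hu g hg
      have h7 := alg_through (hlow T (by omega)) (by omega) h5 h6
      rwa [LinearMap.comp_assoc] at h7 ⊢
    | zero =>
      rw [LinearMap.zero_comp, LinearMap.comp_zero]
      exact zero_mem _
    | add f g _ _ hf hg =>
      rw [LinearMap.add_comp, LinearMap.comp_add]
      exact add_mem hf hg
    | neg f _ hf =>
      rw [LinearMap.neg_comp, LinearMap.comp_neg]
      exact neg_mem hf
  exact key s (hA A B m s hs)

/-- bilinear induction for additive closures -/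
theorem closure_comp {X : W.Var} {S T : Set (W.V X →ₗ[K] W.V X)}
    {A : AddSubgroup (W.V X →ₗ[K] W.V X)} (h : ∀ f ∈ S, ∀ g ∈ T, f ∘ₗ g ∈ A) :
    ∀ f ∈ AddSubgroup.closure S, ∀ g ∈ AddSubgroup.closure T, f ∘ₗ g ∈ A := by
  intro f hf
  induction hf using AddSubgroup.closure_induction with
  | mem f hf =>
    intro g hg
    induction hg using AddSubgroup.closure_induction with
    | mem g hg => exact h f hf g hg
    | zero => rw [LinearMap.comp_zero]; exact zero_mem _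
    | add a b _ _ ha hb => rw [LinearMap.comp_add]; exact add_mem ha hb
    | neg a _ ha => rw [LinearMap.comp_neg]; exact neg_mem ha
  | zero => intro g _; rw [LinearMap.zero_comp]; exact zero_mem _
  | add a b _ _ ha hb => intro g hg; rw [LinearMap.add_comp]; exact add_mem (ha g hg) (hb g hg)
  | neg a _ ha => intro g hg; rw [LinearMap.neg_comp]; exact neg_mem (ha g hg)

theorem comp4 {A B C D E : W.Var} (f : W.V D →ₗ[K] W.V E) (g : W.V C →ₗ[K] W.V D)
    (h : W.V B →ₗ[K] W.V C) (k : W.V A →ₗ[K] W.V B) :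
    (f ∘ₗ g) ∘ₗ (h ∘ₗ k) = f ∘ₗ (g ∘ₗ (h ∘ₗ k)) := rfl

/-- products of balanced correspondences -/
theorem thinB_mul (hA : W.Alterations) {e : ℕ}
    (hlow : ∀ T : W.Var, W.dim T ≤ e → W.Cplus T) (n : ℕ) (X : W.Var) :
    ∀ y ∈ W.ThinB e n X, ∀ z ∈ W.ThinB e 0 X, y ∘ₗ z ∈ W.alg X ⊔ W.ThinB e (n + 1) X := by
  apply closure_comp
  rintro f ⟨S, T, h1, hn, h, hh, u, hu, g, hg, rfl⟩ f' ⟨S', T', h1', _, h', hh', u', hu', g',
    hg', rfl⟩
  by_cases hT : W.dim T' ≤ W.dim T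
  · apply AddSubgroup.mem_sup_left
    -- `h ∘ g'` has dimension at most `e`
    have h2 := W.comp T' X S _ _ g' hg' h hh
    have h3 := W.comp X S' T' _ _ h' hh' u' hu'
    have h4 := W.comp S T X _ _ u hu g hg
    have h5 := mid hA hlow (X := X) (by omega) h2 h3 h4 (by omega)
    exact h5
  · apply AddSubgroup.mem_sup_right
    apply AddSubgroup.subset_closure
    refine ⟨S', T', h1', by omega, h', hh', u', hu', (g ∘ₗ (u ∘ₗ h)) ∘ₗ g', ?_, rfl⟩
    have h2 := W.comp T' X X _ _ g' hg' _ (gen_cyc hh hu hg)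
    rwa [add_sub_cancel_right] at h2

theorem thinB_big (e : ℕ) (X : W.Var) {n : ℕ} (hn : W.dim X + e < n) : W.ThinB e n X = ⊥ := by
  rw [ThinB, AddSubgroup.closure_eq_bot_iff]
  rintro f ⟨S, T, h1, h2, _⟩
  omega

/-- the balanced correspondences form a nilpotent ideal modulo `alg` -/
theorem balanced (hA : W.Alterations) {e : ℕ}
    (hlow : ∀ T : W.Var, W.dim T ≤ e → W.Cplus T) {X : W.Var}
    (h : LinearMap.id ∈ W.alg X ⊔ W.ThinB e 0 X) : LinearMap.id ∈ W.alg X := by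
  obtain ⟨a₁, ha₁, y₁, hy₁, h1⟩ := AddSubgroup.mem_sup.1 h
  have ha₁c : a₁ ∈ W.cyc X X (W.dim X) := by
    have e1 : a₁ = LinearMap.id - y₁ := by rw [← h1]; abel
    rw [e1]
    exact sub_mem (W.diag X) (thinB_cyc e 0 X hy₁)
  have key : ∀ n : ℕ, LinearMap.id ∈ W.alg X ⊔ W.ThinB e n X := by
    intro n
    induction n with
    | zero => exact h
    | succ n ih =>
      obtain ⟨a, ha, y, hy, h2⟩ := AddSubgroup.mem_sup.1 ih
      have e1 : (LinearMap.id : W.V X →ₗ[K] W.V X) = a + y ∘ₗ a₁ + y ∘ₗ y₁ := by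
        rw [add_assoc, ← LinearMap.comp_add, h1, LinearMap.comp_id, h2]
      rw [e1]
      refine add_mem (add_mem (AddSubgroup.mem_sup_left ha) (AddSubgroup.mem_sup_left ?_))
        (thinB_mul hA hlow n X y hy y₁ hy₁)
      exact alg_left ha₁ (thinB_cyc e n X hy)
  have h3 := key (W.dim X + e + 1)
  rwa [thinB_big e X (by omega), sup_bot_eq] at h3

/-- the adjoints of the elements of `ThinL` -/
theorem thinL_adj (hA : W.Alterations) {e : ℕ}
    (hlow : ∀ T : W.Var, W.dim T ≤ e → W.Cplus T) {X : W.Var} {z : W.V X →ₗ[K] W.V X}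
    (hz : z ∈ W.ThinL e X) : ∃ w ∈ W.cyc X X (W.dim X),
      (∀ x y, W.pair X (z x) y = W.pair X x (w y)) ∧ ∀ z₁ ∈ W.ThinL e X, z₁ ∘ₗ w ∈ W.alg X := by
  induction hz using AddSubgroup.closure_induction with
  | mem f hf =>
    obtain ⟨S, T, h1, h, hh, u, hu, g, hg, rfl⟩ := hf
    obtain ⟨h', hh', k1, _⟩ := W.adj X S _ h hh
    obtain ⟨u', hu', k2, _⟩ := W.adj S T _ u hu
    obtain ⟨g', hg', k3, _⟩ := W.adj T X _ g hg
    refine ⟨h' ∘ₗ (u' ∘ₗ g'), ?_, fun x y => ?_, ?_⟩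
    · have h2 := W.comp X T S _ _ g' hg' u' hu'
      have h3 := W.comp X S X _ _ _ h2 h' hh'
      have h4 : (W.dim T : ℤ) + W.dim X - W.dim T + W.dim S - W.dim S = W.dim X := by ring
      rwa [h4] at h3
    · simp only [LinearMap.comp_apply]
      rw [k3, k2, k1]
    · intro z₁ hz₁
      induction hz₁ using AddSubgroup.closure_induction with
      | mem f₁ hf₁ =>
        obtain ⟨S₁, T₁, h1', h₁, hh₁, u₁, hu₁, g₁, hg₁, rfl⟩ := hf₁
        have h2 := W.comp S X S₁ _ _ h' hh' h₁ hh₁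
        have h3 := W.comp X T S _ _ g' hg' u' hu'
        have h4 := W.comp S₁ T₁ X _ _ u₁ hu₁ g₁ hg₁
        exact mid hA hlow (X := X) (by omega) h2 h3 h4 (by omega)
      | zero =>
        rw [LinearMap.zero_comp]
        exact zero_mem _
      | add f g _ _ hf hg =>
        rw [LinearMap.add_comp]
        exact add_mem hf hg
      | neg f _ hf =>
        rw [LinearMap.neg_comp]
        exact neg_mem hf
  | zero =>
    refine ⟨0, zero_mem _, fun x y => by simp, fun z₁ _ => ?_⟩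
    rw [LinearMap.comp_zero]
    exact zero_mem _
  | add f g _ _ hf hg =>
    obtain ⟨w, hw, h1, h2⟩ := hf
    obtain ⟨w', hw', h1', h2'⟩ := hg
    refine ⟨w + w', add_mem hw hw', fun x y => ?_, fun z₁ hz₁ => ?_⟩
    · rw [LinearMap.add_apply, map_add, LinearMap.add_apply, h1, h1', LinearMap.add_apply, map_add]
    · rw [LinearMap.comp_add]
      exact add_mem (h2 z₁ hz₁) (h2' z₁ hz₁)
  | neg f _ hf =>
    obtain ⟨w, hw, h1, h2⟩ := hf
    refine ⟨-w, neg_mem hw, fun x y => ?_, fun z₁ hz₁ => ?_⟩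
    · rw [LinearMap.neg_apply, map_neg, LinearMap.neg_apply, h1, LinearMap.neg_apply, map_neg]
    · rw [LinearMap.comp_neg]
      exact neg_mem (h2 z₁ hz₁)

theorem thinB_left {e : ℕ} {X : W.Var} {y r : W.V X →ₗ[K] W.V X} (hy : y ∈ W.ThinB e 0 X)
    (hr : r ∈ W.cyc X X (W.dim X)) : r ∘ₗ y ∈ W.ThinB e 0 X := by
  induction hy using AddSubgroup.closure_induction with
  | mem f hf =>
    obtain ⟨S, T, h1, h2, h, hh, u, hu, g, hg, rfl⟩ := hf
    apply AddSubgroup.subset_closure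
    refine ⟨S, T, h1, h2, h, hh, u, hu, r ∘ₗ g, ?_, rfl⟩
    have h3 := W.comp T X X _ _ g hg r hr
    rwa [add_sub_cancel_right] at h3
  | zero => rw [LinearMap.comp_zero]; exact zero_mem _
  | add a b _ _ ha hb => rw [LinearMap.comp_add]; exact add_mem ha hb
  | neg a _ ha => rw [LinearMap.comp_neg]; exact neg_mem ha

theorem thinB_right {e : ℕ} {X : W.Var} {y r : W.V X →ₗ[K] W.V X} (hy : y ∈ W.ThinB e 0 X)
    (hr : r ∈ W.cyc X X (W.dim X)) : y ∘ₗ r ∈ W.ThinB e 0 X := by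
  induction hy using AddSubgroup.closure_induction with
  | mem f hf =>
    obtain ⟨S, T, h1, h2, h, hh, u, hu, g, hg, rfl⟩ := hf
    apply AddSubgroup.subset_closure
    refine ⟨S, T, h1, h2, h ∘ₗ r, ?_, u, hu, g, hg, rfl⟩
    have h3 := W.comp X X S _ _ r hr h hh
    rwa [add_sub_cancel_left] at h3
  | zero => rw [LinearMap.zero_comp]; exact zero_mem _
  | add a b _ _ ha hb => rw [LinearMap.add_comp]; exact add_mem ha hb
  | neg a _ ha => rw [LinearMap.neg_comp]; exact neg_mem ha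

/-- adjoints of balanced correspondences are balanced -/
theorem thinB_adj {e : ℕ} {X : W.Var} {z : W.V X →ₗ[K] W.V X}
    (hz : z ∈ W.ThinB e 0 X) : ∃ w ∈ W.ThinB e 0 X,
      ∀ x y, W.pair X (z x) y = W.pair X x (w y) := by
  induction hz using AddSubgroup.closure_induction with
  | mem f hf =>
    obtain ⟨S, T, h1, _, h, hh, u, hu, g, hg, rfl⟩ := hf
    obtain ⟨h', hh', k1, _⟩ := W.adj X S _ h hh
    obtain ⟨u', hu', k2, _⟩ := W.adj S T _ u hu
    obtain ⟨g', hg', k3, _⟩ := W.adj T X _ g hg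
    refine ⟨h' ∘ₗ (u' ∘ₗ g'), ?_, fun x y => ?_⟩
    · exact AddSubgroup.subset_closure ⟨T, S, by omega, Nat.zero_le _, g', hg', u', hu', h',
        hh', rfl⟩
    · simp only [LinearMap.comp_apply]
      rw [k3, k2, k1]
  | zero => exact ⟨0, zero_mem _, fun x y => by simp⟩
  | add f g _ _ hf hg =>
    obtain ⟨w, hw, h1⟩ := hf
    obtain ⟨w', hw', h1'⟩ := hg
    refine ⟨w + w', add_mem hw hw', fun x y => ?_⟩
    rw [LinearMap.add_apply, map_add, LinearMap.add_apply, h1, h1', LinearMap.add_apply, map_add]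
  | neg f _ hf =>
    obtain ⟨w, hw, h1⟩ := hf
    refine ⟨-w, neg_mem hw, fun x y => ?_⟩
    rw [LinearMap.neg_apply, map_neg, LinearMap.neg_apply, h1, LinearMap.neg_apply, map_neg]

theorem main_thin (hA : W.Alterations) {e : ℕ}
    (hlow : ∀ T : W.Var, W.dim T ≤ e → W.Cplus T) {X : W.Var} {b c : W.V X →ₗ[K] W.V X}
    (hb : b ∈ W.cyc X X (W.dim X)) (hc : c ∈ W.cyc X X (W.dim X)) (hb' : W.KillsOdd b)
    (hc' : W.KillsEven c) (hz : LinearMap.id - b - c ∈ W.Thin e X) : W.Cplus X := by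
  rw [cplus_iff]
  obtain ⟨x, hx, y, hy, hxy⟩ := AddSubgroup.mem_sup.1 (thin_le e X hz)
  obtain ⟨x', hx', x1, x2⟩ := thinL_adj hA hlow hx
  obtain ⟨y', hy', y1⟩ := thinB_adj hy
  obtain ⟨bt, hbt, b1, _⟩ := W.adj X X _ b hb
  obtain ⟨ct, hct, c1, _⟩ := W.adj X X _ c hc
  have hbt' := adj_killsOdd hb hb' b1
  have hct' := adj_killsEven hc hc' c1
  have hone : bt + ct + x' + y' = LinearMap.id := by
    apply LinearMap.ext
    intro v
    rw [← sub_eq_zero]
    apply W.pair_right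
    intro u
    have h1 : W.pair X u ((bt + ct + x' + y') v) = W.pair X ((b + c + x + y) u) v := by
      simp only [LinearMap.add_apply, map_add, b1, c1, x1, y1]
    have h2 : b + c + x + y = LinearMap.id := by
      rw [add_assoc, hxy]
      abel
    rw [map_sub, h1, h2]
    simp
  have hone' : b + c + x + y = LinearMap.id := by
    rw [add_assoc, hxy]
    abel
  have hxc := thinL_cyc e X hx
  have e1 : (LinearMap.id : W.V X →ₗ[K] W.V X) =
      b + c + y + x ∘ₗ bt + x ∘ₗ ct + x ∘ₗ x' + x ∘ₗ y' := by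
    have h1 : x = x ∘ₗ bt + x ∘ₗ ct + x ∘ₗ x' + x ∘ₗ y' := by
      rw [← LinearMap.comp_add, ← LinearMap.comp_add, ← LinearMap.comp_add, hone,
        LinearMap.comp_id]
    rw [← hone']
    conv_lhs => rw [h1]
    abel
  apply balanced hA hlow
  rw [e1]
  refine add_mem (add_mem (add_mem (add_mem (add_mem (add_mem
    (AddSubgroup.mem_sup_left (alg_killsOdd hb hb')) (AddSubgroup.mem_sup_left
      (alg_killsEven hc'))) (AddSubgroup.mem_sup_right hy)) (AddSubgroup.mem_sup_left ?_))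
    (AddSubgroup.mem_sup_left ?_)) (AddSubgroup.mem_sup_left (x2 x hx)))
    (AddSubgroup.mem_sup_right (thinB_left hy' hxc))
  · refine alg_killsOdd (comp_mem hbt hxc) fun i hi v hv => ?_
    rw [LinearMap.comp_apply, hbt' i hi v hv, map_zero]
  · refine alg_killsEven fun i hi v hv => ?_
    rw [LinearMap.comp_apply, hct' i hi v hv, map_zero]

theorem tfae_thin (hA : W.Alterations) {e : ℕ}
    (hlow : ∀ T : W.Var, W.dim T ≤ e → W.Cplus T) (X : W.Var) :
    [W.Cplus X,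
      ∃ b ∈ W.cyc X X (W.dim X), ∃ c ∈ W.cyc X X (W.dim X), W.KillsOdd b ∧ W.KillsEven c ∧
        LinearMap.id - b - c ∈ W.Thin e X,
      ∃ f ∈ W.Through X, LinearMap.id - f ∈ W.Thin e X].TFAE := by
  tfae_have 1 → 3 := by
    intro h
    refine ⟨LinearMap.id, ?_, by rw [sub_self]; exact zero_mem _⟩
    apply AddSubgroup.subset_closure
    exact ⟨X, h, W.dim X, W.dim X, by omega, LinearMap.id, W.diag X, LinearMap.id, W.diag X,
      rfl⟩
  tfae_have 3 → 2 := by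
    rintro ⟨f, hf, hz⟩
    obtain ⟨e', he, h1, h2⟩ := through_alg X hf
    refine ⟨e', he, f - e', sub_mem (through_cyc X hf) he, h2, fun i hi x hx => ?_, ?_⟩
    · rw [LinearMap.sub_apply, h1 i hi x hx, sub_self]
    · have : (LinearMap.id : W.V X →ₗ[K] W.V X) - e' - (f - e') = LinearMap.id - f := by abel
      rwa [this]
  tfae_have 2 → 1 := by
    rintro ⟨b, hb, c, hc, h1, h2, h3⟩
    exact main_thin hA hlow hb hc h1 h2 h3
  tfae_finish

end Theory

end Pool.Agent.H6.CP
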