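import Mathlib

set_option autoImplicit false

/-!
# Cohomology theories with algebraic correspondences, and the conjecture C⁺
-/

namespace Pool.Agent.H6.CP

/-- A cohomology theory with algebraic correspondences, with coefficients in the field `K`:

* `Var`: the (smooth, proper, equidimensional) varieties; `dim`: their dimension;
* `V X`: the total cohomology of `X`, a finite-dimensional `K`-vector space, the direct sum of the
  subspaces `gr X i = Hⁱ(X)`, which are zero unless `0 ≤ i ≤ 2 dim X`;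
* `pair X`: the Poincaré pairing; `Hⁱ` and `Hʲ` are orthogonal unless `i + j = 2 dim X`;
* `cyc X Y m`: the group of the maps `V X → V Y` induced by the cycles of dimension `m` with rational
  coefficients on `X × Y`; such a map sends `Hⁱ(X)` to `Hⁱ⁺²ˢ(Y)` with `s = dim Y - m`;
  they are stable under multiplication by rational numbers; the diagonal induces the identity;
  cycles of dimensions `m` and `n` on `X × Y` and `Y × Z` are composed to a cycle of dimension
  `m + n - dim Y` on `X × Z`; the transpose of a cycle induces the adjoint map. -/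
structure Theory (K : Type) [Field K] where
  Var : Type
  dim : Var → ℕ
  V : Var → Type
  [grp : ∀ X, AddCommGroup (V X)]
  [mod : ∀ X, Module K (V X)]
  [fin : ∀ X, Module.Finite K (V X)]
  gr : ∀ X, ℤ → Submodule K (V X)
  internal : ∀ X, DirectSum.IsInternal (gr X)
  bounded : ∀ X i, i < 0 ∨ 2 * (dim X : ℤ) < i → gr X i = ⊥
  pair : ∀ X, V X →ₗ[K] V X →ₗ[K] K
  pair_deg : ∀ X i j, i + j ≠ 2 * (dim X : ℤ) → ∀ x ∈ gr X i, ∀ y ∈ gr X j, pair X x y = 0
  pair_left : ∀ X x, (∀ y, pair X x y = 0) → x = 0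
  pair_right : ∀ X y, (∀ x, pair X x y = 0) → y = 0
  cyc : ∀ X Y, ℤ → AddSubgroup (V X →ₗ[K] V Y)
  rat : ∀ X Y m (q : ℚ), ∀ f ∈ cyc X Y m, (q : K) • f ∈ cyc X Y m
  deg : ∀ X Y m, ∀ f ∈ cyc X Y m, ∀ i, ∀ x ∈ gr X i, f x ∈ gr Y (i + 2 * (dim Y - m))
  diag : ∀ X, LinearMap.id ∈ cyc X X (dim X)
  comp : ∀ X Y Z m n, ∀ f ∈ cyc X Y m, ∀ g ∈ cyc Y Z n, g ∘ₗ f ∈ cyc X Z (m + n - dim Y)
  adj : ∀ X Y m, ∀ f ∈ cyc X Y m, ∃ g ∈ cyc Y X m,
    (∀ x y, pair Y (f x) y = pair X x (g y)) ∧ ∀ x y, pair X (g y) x = pair Y y (f x)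

attribute [instance] Theory.grp Theory.mod Theory.fin

variable {K : Type} [Field K]

namespace Theory

variable (W : Theory K)

/-- `f` is zero on the cohomology of odd degree -/
def KillsOdd {X Y : W.Var} (f : W.V X →ₗ[K] W.V Y) : Prop :=
  ∀ i, Odd i → ∀ x ∈ W.gr X i, f x = 0

/-- `f` is zero on the cohomology of even degree -/
def KillsEven {X Y : W.Var} (f : W.V X →ₗ[K] W.V Y) : Prop :=
  ∀ i, Even i → ∀ x ∈ W.gr X i, f x = 0

/-- `C⁺(X)`: some cycle of dimension `dim X` on `X × X` induces the even Künneth projector: the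
identity on the cohomology of even degree and zero on the cohomology of odd degree -/
def Cplus (X : W.Var) : Prop :=
  ∃ f ∈ W.cyc X X (W.dim X), (∀ i, Even i → ∀ x ∈ W.gr X i, f x = x) ∧ W.KillsOdd f

end Theory

end Pool.Agent.H6.CP
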