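import Pool.Agent.H6.CP.Modulo

set_option autoImplicit false

set_option linter.unusedSectionVars false

/-!
# The conjecture C⁺ modulo classes of algebraic cycles and classes coming from curves
-/

namespace Pool.Agent.H6.CP

variable {K : Type} [Field K]

namespace Theory

variable (W : Theory K)

/-- Weil's theorems on correspondences between curves, and their (elementary) analogue in
dimension zero: `C⁺` holds for the curves (the varieties of dimension one); if `C` and `D` both have
dimension `e ≤ 1`, `f` is a correspondence of dimension `e` from `C` to `D` (for curves: zero on the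
cohomology of even degree) and `g` is its transpose, then the trace of `g ∘ f` is a rational number,
which is positive unless `f` is zero -/
structure Low : Prop where
  curve : ∀ C : W.Var, W.dim C = 1 → W.Cplus C
  pos : ∀ e : ℕ, e ≤ 1 → ∀ C D : W.Var, W.dim C = e → W.dim D = e → ∀ f ∈ W.cyc C D e,
    (e = 1 → W.KillsEven f) → ∀ g ∈ W.cyc D C e,
    (∀ x y, W.pair D (f x) y = W.pair C x (g y)) →
    ∃ q : ℚ, 0 ≤ q ∧ LinearMap.trace K (W.V C) (g ∘ₗ f) = (q : K) ∧ (q = 0 → f = 0)

/-- the subspace of the cohomology of `X` which is spanned by the images, under correspondences, of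
the groups `Hᵉ(C)` of the varieties `C` of dimension `e`; for `e = 0` this is the span of the
classes of algebraic cycles, for `e = 1` the part coming from the first cohomology of curves -/
def Part (e : ℕ) (X : W.Var) : Submodule K (W.V X) :=
  Submodule.span K {y | ∃ C : W.Var, W.dim C = e ∧ ∃ m : ℤ, ∃ α ∈ W.cyc C X m,
    ∃ x ∈ W.gr C e, y = α x}

variable {W}

theorem KO_one {X Y : W.Var} (f : W.V X →ₗ[K] W.V Y) : W.KO 1 f ↔ W.KillsEven f := by
  constructor
  · intro h i hi x hx
    refine h i ?_ x hx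
    obtain ⟨k, hk⟩ := hi
    exact ⟨k - 1, by push_cast; omega⟩
  · intro h i hi x hx
    refine h i ?_ x hx
    obtain ⟨k, hk⟩ := hi
    push_cast at hk
    exact ⟨k + 1, by omega⟩

theorem KO_zero {X Y : W.Var} (f : W.V X →ₗ[K] W.V Y) : W.KO 0 f ↔ W.KillsOdd f := by
  constructor
  · intro h i hi x hx
    refine h i ?_ x hx
    simpa using hi
  · intro h i hi x hx
    refine h i ?_ x hx
    simpa using hi

theorem low_pos (hW : W.Low) {e : ℕ} (he : e ≤ 1) : W.Pos e := by
  intro C D hC hD f hf hk g hg hadj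
  refine hW.pos e he C D hC hD f hf (fun h => ?_) g hg hadj
  subst h
  exact (KO_one f).1 hk

theorem low_proj_one (hW : W.Low) : W.Proj 1 := by
  intro C hC
  obtain ⟨e, he, h1, h2⟩ := hW.curve C hC
  have hd := W.diag C
  rw [hC] at he hd
  refine ⟨LinearMap.id - e, sub_mem hd he, fun i hi x hx => ?_, fun i hi x hx => ?_⟩
  · have hi' : Even i := by
      obtain ⟨k, hk⟩ := hi
      push_cast at hk
      exact ⟨k + 1, by omega⟩
    rw [LinearMap.sub_apply, h1 i hi' x hx, LinearMap.id_apply, sub_self]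
  · have hi' : Odd i := by
      obtain ⟨k, hk⟩ := hi
      push_cast at hk
      exact ⟨k, by omega⟩
    rw [LinearMap.sub_apply, h2 i hi' x hx, LinearMap.id_apply, sub_zero]

theorem proj_zero : W.Proj 0 := by
  intro C hC
  have hd := W.diag C
  rw [hC] at hd
  refine ⟨LinearMap.id, hd, fun i hi x hx => ?_, fun i hi x hx => rfl⟩
  have h1 : W.gr C i = ⊥ := by
    apply W.bounded
    rw [hC]
    obtain ⟨k, hk⟩ := hi
    push_cast at hk ⊢
    omega
  rw [h1, Submodule.mem_bot] at hx
  rw [hx, map_zero]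

variable [CharZero K]

theorem tfae_low (hW : W.Low) (X : W.Var) :
    [W.Cplus X,
      ∃ c ∈ W.cyc X X (W.dim X), W.KillsEven c ∧
        ∀ i, Odd i → ∀ x ∈ W.gr X i, x - c x ∈ W.Part 1 X,
      ∃ b ∈ W.cyc X X (W.dim X), W.KillsOdd b ∧
        ∀ i, Even i → ∀ x ∈ W.gr X i, x - b x ∈ W.Part 0 X].TFAE := by
  tfae_have 1 → 2 := by
    rintro ⟨e, he, h1, h2⟩
    refine ⟨LinearMap.id - e, sub_mem (W.diag X) he, fun i hi x hx => ?_, fun i hi x hx => ?_⟩
    · rw [LinearMap.sub_apply, LinearMap.id_apply, h1 i hi x hx, sub_self]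
    · rw [LinearMap.sub_apply, LinearMap.id_apply, h2 i hi x hx, sub_zero, sub_self]
      exact Submodule.zero_mem _
  tfae_have 1 → 3 := by
    rintro ⟨e, he, h1, h2⟩
    refine ⟨e, he, h2, fun i hi x hx => ?_⟩
    rw [h1 i hi x hx, sub_self]
    exact Submodule.zero_mem _
  tfae_have 2 → 1 := by
    rintro ⟨c, hc, h1, h2⟩
    obtain ⟨E, hE, hE1, hE2⟩ := main_part le_rfl (low_pos hW le_rfl) (low_proj_one hW) hc
      ((KO_one c).2 h1) (fun i hi x hx => h2 i (by
        obtain ⟨k, hk⟩ := hi
        push_cast at hk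
        exact ⟨k, by omega⟩) x hx)
    refine ⟨LinearMap.id - E, sub_mem (W.diag X) hE, fun i hi x hx => ?_,
      fun i hi x hx => ?_⟩
    · rw [LinearMap.sub_apply, (KO_one E).1 hE1 i hi x hx, LinearMap.id_apply, sub_zero]
    · rw [LinearMap.sub_apply, LinearMap.id_apply, hE2 i (by
        obtain ⟨k, hk⟩ := hi
        push_cast
        exact ⟨k, by omega⟩) x hx, sub_self]
  tfae_have 3 → 1 := by
    rintro ⟨b, hb, h1, h2⟩
    obtain ⟨E, hE, hE1, hE2⟩ := main_part (Nat.zero_le 1) (low_pos hW (Nat.zero_le 1))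
      proj_zero hb ((KO_zero b).2 h1) (fun i hi x hx => h2 i (by simpa using hi) x hx)
    exact ⟨E, hE, fun i hi x hx => hE2 i (by simpa using hi) x hx, (KO_zero E).1 hE1⟩
  tfae_finish

end Theory

end Pool.Agent.H6.CP
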