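import Pool.Agent.H6.CP.Quasi

set_option autoImplicit false

set_option linter.unusedSectionVars false

/-!
# The conjecture C⁺ modulo classes coming from varieties of dimension `e ≤ 1`
-/

namespace Pool.Agent.H6.CP

variable {K : Type} [Field K]

namespace Theory

variable {W : Theory K}

theorem pair_ext {X : W.Var} {y : W.V X} (h : ∀ i, ∀ x ∈ W.gr X i, W.pair X x y = 0) :
    y = 0 := by
  apply W.pair_right
  intro x
  have h3 : (⨆ i, W.gr X i) ≤ LinearMap.ker (LinearMap.flip (W.pair X) y) :=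
    iSup_le fun i x hx => LinearMap.mem_ker.2 (by rw [LinearMap.flip_apply]; exact h i x hx)
  rw [(W.internal X).submodule_iSup_eq_top, top_le_iff, LinearMap.ker_eq_top] at h3
  have h2 := LinearMap.congr_fun h3 x
  rwa [LinearMap.flip_apply] at h2

/-- the subspace spanned by the images of the groups `Hᵉ(C)` of the varieties `C` of dimension `e`
under correspondences -/
def part (W : Theory K) (e : ℕ) (X : W.Var) : Submodule K (W.V X) :=
  Submodule.span K {y | ∃ C : W.Var, W.dim C = e ∧ ∃ m : ℤ, ∃ α ∈ W.cyc C X m,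
    ∃ x ∈ W.gr C e, y = α x}

/-- projectors on `Hᵉ` for the varieties of dimension `e` -/
def Proj (W : Theory K) (e : ℕ) : Prop := ∀ C : W.Var, W.dim C = e →
  ∃ o ∈ W.cyc C C e, W.KO e o ∧ ∀ i : ℤ, Even (i - e) → ∀ x ∈ W.gr C i, o x = x

theorem adj_KO {e : ℕ} {X Y : W.Var} {m : ℤ} {f : W.V X →ₗ[K] W.V Y} {g : W.V Y →ₗ[K] W.V X}
    (hf : f ∈ W.cyc X Y m) (h : W.KO e f)
    (hadj : ∀ x y, W.pair Y (f x) y = W.pair X x (g y)) : W.KO e g := by
  intro j hj y hy
  apply pair_ext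
  intro i x hx
  rw [← hadj]
  rcases Int.even_or_odd (i - e) with hi | hi
  · refine W.pair_deg Y _ j ?_ _ (W.deg X Y _ f hf i x hx) y hy
    obtain ⟨a, ha⟩ := hi
    obtain ⟨b, hb⟩ := hj
    omega
  · rw [h i hi x hx, map_zero, LinearMap.zero_apply]

/-- on a variety of dimension `e ≤ 1` the cohomology in degrees congruent to `e` is `Hᵉ` -/
theorem only_mid {e : ℕ} (he : e ≤ 1) {C : W.Var} (hC : W.dim C = e) {i : ℤ}
    (hi : Even (i - e)) (h1 : i ≠ e) : W.gr C i = ⊥ := by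
  apply W.bounded
  rw [hC]
  obtain ⟨k, hk⟩ := hi
  omega

theorem exists_family {e : ℕ} (hP : W.Proj e) (X : W.Var) :
    ∃ (ι : Type) (_ : Fintype ι) (_ : DecidableEq ι) (C : ι → W.Var) (m : ι → ℤ)
      (A : ∀ i, W.V (C i) →ₗ[K] W.V X), (∀ i, W.dim (C i) = e) ∧
      (∀ i, A i ∈ W.cyc (C i) X (m i)) ∧ (∀ i, W.KO e (A i)) ∧
      ∀ y ∈ W.part e X, ∃ u : ∀ i, W.V (C i), y = ∑ i, A i (u i) := by
  classical
  have hfg : (W.part e X).FG := IsNoetherian.noetherian _
  obtain ⟨s, hs, hs2⟩ := (Submodule.fg_span_iff_fg_span_finset_subset _).1 hfg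
  have h1 : ∀ y : s, ∃ C : W.Var, W.dim C = e ∧ ∃ m : ℤ, ∃ α ∈ W.cyc C X m,
    ∃ x ∈ W.gr C e, (y : W.V X) = α x := fun y => hs y.2
  choose C hC m α hα x hx hy using h1
  choose o ho ho1 ho2 using fun y : s => hP _ (hC y)
  refine ⟨s, inferInstance, inferInstance, C, m, fun i => α i ∘ₗ o i, hC, fun i => ?_,
    fun i => ?_, fun y hy' => ?_⟩
  · have := W.comp _ _ _ _ _ _ (ho i) _ (hα i)
    rw [hC i] at this
    simpa using this
  · exact KO_comp _ (ho1 i)
  · have h2 : y ∈ Submodule.span K (s : Set (W.V X)) := by rw [← hs2]; exact hy'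
    induction h2 using Submodule.span_induction with
    | mem y hys =>
      refine ⟨Pi.single ⟨y, hys⟩ (x ⟨y, hys⟩), ?_⟩
      rw [Finset.sum_eq_single ⟨y, hys⟩ (fun j _ hj => by
          rw [Pi.single_eq_of_ne hj, map_zero])
        (fun h => absurd (Finset.mem_univ _) h), Pi.single_eq_same, LinearMap.comp_apply,
        ho2 _ e (by simp) _ (hx _)]
      exact hy ⟨y, hys⟩
    | zero => exact ⟨0, by simp⟩
    | add a b ha hb iha ihb =>
      obtain ⟨u, hu⟩ := iha (by rw [part, hs2]; exact ha)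
      obtain ⟨v, hv⟩ := ihb (by rw [part, hs2]; exact hb)
      refine ⟨u + v, ?_⟩
      rw [hu, hv, ← Finset.sum_add_distrib]
      exact Finset.sum_congr rfl fun i _ => by rw [Pi.add_apply, map_add]
    | smul q a ha iha =>
      obtain ⟨u, hu⟩ := iha (by rw [part, hs2]; exact ha)
      refine ⟨q • u, ?_⟩
      rw [hu, Finset.smul_sum]
      exact Finset.sum_congr rfl fun i _ => by rw [Pi.smul_apply, map_smul]

variable [CharZero K]

/-- if a correspondence is zero in the wrong parity, and the identity modulo `part e X` in the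
parity of `e`, then the projector onto the parity of `e` is algebraic -/
theorem main_part {e : ℕ} (he : e ≤ 1) (hW : W.Pos e) (hP : W.Proj e) {X : W.Var}
    {c₀ : W.V X →ₗ[K] W.V X}
    (hc₀ : c₀ ∈ W.cyc X X (W.dim X)) (hk : W.KO e c₀)
    (hcp : ∀ i : ℤ, Even (i - e) → ∀ x ∈ W.gr X i, x - c₀ x ∈ W.part e X) :
    ∃ E ∈ W.cyc X X (W.dim X), W.KO e E ∧
      ∀ i : ℤ, Even (i - e) → ∀ x ∈ W.gr X i, E x = x := by
  obtain ⟨ι, _, _, C, m, A, hC, hA, hAe, hrange⟩ := exists_family hP X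
  choose A' hA' had1 had2 using fun i => W.adj (C i) X (m i) (A i) (hA i)
  have hA'e : ∀ i, W.KO e (A' i) := fun i => adj_KO (hA i) (hAe i) (had1 i)
  -- the two maps
  obtain ⟨a, ha⟩ : ∃ a : (∀ i, W.V (C i)) →ₗ[K] W.V X, ∀ u, a u = ∑ i, A i (u i) :=
    ⟨∑ i, A i ∘ₗ LinearMap.proj i, fun u => by rw [LinearMap.sum_apply]; rfl⟩
  obtain ⟨a', ha'⟩ : ∃ a' : W.V X →ₗ[K] (∀ i, W.V (C i)), ∀ y i, a' y i = A' i y :=
    ⟨LinearMap.pi A', fun y i => rfl⟩
  have p1 : ∀ u y, W.pair X (a u) y = BB C u (a' y) := by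
    intro u y
    rw [ha, map_sum, LinearMap.sum_apply]
    exact Finset.sum_congr rfl fun i _ => by rw [had1, ha']
  have p2 : ∀ y u, BB C (a' y) u = W.pair X y (a u) := by
    intro y u
    rw [ha, map_sum]
    exact Finset.sum_congr rfl fun i _ => by rw [ha', had2]
  obtain ⟨c, hc⟩ : ∃ c : Module.End K (∀ i, W.V (C i)), c = a' ∘ₗ a := ⟨_, rfl⟩
  have hca : ∀ u, c u = a' (a u) := fun u => by rw [hc]; rfl
  have hSA : SA C c := by
    intro u v
    rw [hca, hca, p2, p1]
  have hblk : ∀ i j, blk C c i j = A' i ∘ₗ A j := by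
    intro i j
    ext x
    rw [blk_apply, hca, ha', ha, LinearMap.comp_apply]
    congr 1
    rw [Finset.sum_eq_single j (fun k _ hk => by rw [Pi.single_eq_of_ne hk, map_zero])
      (fun h => absurd (Finset.mem_univ _) h), Pi.single_eq_same]
  have hcG : c ∈ GG C e m (refl (W.dim X + e)) := by
    intro i j
    rw [hblk]
    have h1 := W.comp _ _ _ _ _ _ (hA j) _ (hA' i)
    have hz : m i ≠ refl (W.dim X + e) (m j) → A' i ∘ₗ A j = 0 := by
      intro hne
      apply ext_gr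
      intro k x hx
      rw [LinearMap.zero_apply]
      rcases Int.even_or_odd (k - e) with hk | hk
      · have h2 := W.deg _ _ _ _ h1 k x hx
        by_cases hk1 : k = e
        · have h3 : W.gr (C i) (k + 2 * ((W.dim (C i) : ℤ) - (m j + m i - W.dim X))) = ⊥ := by
            refine only_mid he (hC i) ?_ ?_
            · obtain ⟨l, hl⟩ := hk
              exact ⟨l + ((W.dim (C i) : ℤ) - (m j + m i - W.dim X)), by omega⟩
            · rw [hC i, hk1]
              simp only [refl] at hne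
              omega
          rw [h3, Submodule.mem_bot] at h2
          exact h2
        · have h3 := only_mid he (hC j) hk hk1
          rw [h3, Submodule.mem_bot] at hx
          rw [hx, map_zero]
      · rw [LinearMap.comp_apply, hAe j k hk x hx, map_zero]
    refine ⟨?_, KO_comp _ (hAe j), hz⟩
    by_cases hm : m i = refl (W.dim X + e) (m j)
    · have h4 : m j + m i - (W.dim X : ℤ) = e := by
        rw [hm]
        simp only [refl]
        ring
      rwa [h4] at h1
    · rw [hz hm]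
      exact zero_mem _
  obtain ⟨b, hb, hcb⟩ := quasi C hW hC hcG hSA
  -- the correspondence `p`
  obtain ⟨p, hp⟩ : ∃ p : W.V X →ₗ[K] W.V X, p = a ∘ₗ b ∘ₗ a' := ⟨_, rfl⟩
  have hpa : ∀ y, p y = a (b (a' y)) := fun y => by rw [hp]; rfl
  have hpcyc : p ∈ W.cyc X X (W.dim X) := by
    have e1 : p = ∑ i, ∑ j, A i ∘ₗ (blk C b i j ∘ₗ A' j) := by
      ext y
      rw [hpa, ha, LinearMap.sum_apply]
      refine Finset.sum_congr rfl fun i _ => ?_
      rw [LinearMap.sum_apply, apply_eq_sum, map_sum]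
      exact Finset.sum_congr rfl fun j _ => by
        rw [LinearMap.comp_apply, LinearMap.comp_apply, ha']
    rw [e1]
    refine sum_mem fun i _ => sum_mem fun j _ => ?_
    by_cases hm : m i = refl (W.dim X + e) (m j)
    · have h1 := W.comp _ _ _ _ _ _ (hA' j) _ (hb i j).1
      have h2 := W.comp _ _ _ _ _ _ h1 _ (hA i)
      have h3 : m j + (e : ℤ) - (W.dim (C j) : ℤ) + m i - W.dim (C i) = W.dim X := by
        rw [hC i, hC j, hm]
        simp only [refl]
        ring
      rwa [h3] at h2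
    · rw [(hb i j).2.2 hm, LinearMap.zero_comp, LinearMap.comp_zero]
      exact zero_mem _
  have ha'e : ∀ i : ℤ, Odd (i - e) → ∀ x ∈ W.gr X i, a' x = 0 := by
    intro i hi x hx
    funext j
    rw [ha', hA'e j i hi x hx]
    rfl
  obtain ⟨c₁, hc₁, hc₁a, _⟩ := W.adj X X _ c₀ hc₀
  have hk₁ : W.KO e c₁ := adj_KO hc₀ hk hc₁a
  have hr : ∀ x y, W.pair X (x - c₀ x) y = W.pair X x (y - c₁ y) := by
    intro x y
    rw [map_sub, LinearMap.sub_apply, hc₁a, map_sub]
  -- `p` is the identity on `part e X` up to its orthogonal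
  have key : ∀ i : ℤ, Even (i - e) → ∀ x ∈ W.gr X i,
      (p (x - c₀ x) - (x - c₀ x)) - c₁ (p (x - c₀ x) - (x - c₀ x)) = 0 := by
    intro i hi x hx
    obtain ⟨u, hu⟩ := hrange _ (hcp i hi x hx)
    rw [← ha] at hu
    apply pair_ext
    intro k z hz
    rw [← hr]
    rcases Int.even_or_odd (k - e) with hko | hke
    · obtain ⟨v, hv⟩ := hrange _ (hcp k hko z hz)
      rw [← ha] at hv
      rw [hv, hu, map_sub, hpa, p1, p1, ← hca, ← hca]
      have e1 : c (b (c u)) = c u := by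
        have := LinearMap.congr_fun hcb u
        simpa [Module.End.mul_apply] using this
      rw [e1, sub_self]
    · rw [hk k hke z hz, sub_zero, map_sub, hpa, hu, ← p2, ← p2, ha'e k hke z hz]
      simp [BB]
  -- the projector
  obtain ⟨E, hE⟩ : ∃ E : W.V X →ₗ[K] W.V X,
      E = (LinearMap.id - c₁) ∘ₗ p ∘ₗ (LinearMap.id - c₀) + c₁ + c₀ - c₁ ∘ₗ c₀ := ⟨_, rfl⟩
  have hEcyc : E ∈ W.cyc X X (W.dim X) := by
    rw [hE]
    exact sub_mem (add_mem (add_mem (comp_mem (comp_mem (sub_mem (W.diag X) hc₀) hpcyc)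
      (sub_mem (W.diag X) hc₁)) hc₁) hc₀) (comp_mem hc₀ hc₁)
  have hEx : ∀ x, E x = (p (x - c₀ x) - c₁ (p (x - c₀ x))) + c₁ x + c₀ x - c₁ (c₀ x) := by
    intro x
    rw [hE]
    rfl
  refine ⟨E, hEcyc, fun i hi x hx => ?_, fun i hi x hx => ?_⟩
  · rw [hEx, hk i hi x hx, hk₁ i hi x hx, sub_zero, hpa, ha'e i hi x hx]
    simp
  · have h1 := key i hi x hx
    rw [hEx]
    obtain ⟨w, hw⟩ : ∃ w, w = p (x - c₀ x) := ⟨_, rfl⟩
    rw [← hw] at h1 ⊢
    rw [map_sub, map_sub] at h1
    have h3 : w - c₁ w = (x - c₀ x) - (c₁ x - c₁ (c₀ x)) := by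
      rw [← sub_eq_zero, ← h1]
      abel
    rw [h3]
    abel

end Theory

end Pool.Agent.H6.CP
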