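import Pool.Agent.H6.CP.Zero

set_option autoImplicit false

set_option linter.unusedSectionVars false

/-!
# Low-dimensional varieties and the conjecture C⁺: correspondences between varieties of dimension `e`
-/

namespace Pool.Agent.H6.CP

variable {K : Type} [Field K]

namespace Theory

variable (W : Theory K)

/-- `f` is zero on the cohomology of the degrees `i` with `i - e` odd -/
def KO (W : Theory K) (e : ℕ) {X Y : W.Var} (f : W.V X →ₗ[K] W.V Y) : Prop :=
  ∀ i : ℤ, Odd (i - e) → ∀ x ∈ W.gr X i, f x = 0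

/-- positivity of the traces of correspondences between the varieties of dimension `e` -/
def Pos (e : ℕ) : Prop :=
  ∀ C D : W.Var, W.dim C = e → W.dim D = e → ∀ f ∈ W.cyc C D e, W.KO e f →
    ∀ g ∈ W.cyc D C e, (∀ x y, W.pair D (f x) y = W.pair C x (g y)) →
    ∃ q : ℚ, 0 ≤ q ∧ LinearMap.trace K (W.V C) (g ∘ₗ f) = (q : K) ∧ (q = 0 → f = 0)

end Theory

section gram

variable [CharZero K] {A : Type} [Ring A] [Algebra K A]

/-- a Gram matrix argument: a linear dependence over `K` gives one over `ℚ` -/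
theorem gram (tr : A →ₗ[K] K) {n : ℕ} (v : Fin n → A) (g : Fin n → Fin n → ℚ)
    (hg : ∀ i j, tr (v i * v j) = (g i j : K))
    (hpos : ∀ μ : Fin n → ℚ, tr ((∑ i, (μ i : K) • v i) * (∑ i, (μ i : K) • v i)) = 0 →
      ∑ i, (μ i : K) • v i = 0)
    (hdep : ¬ LinearIndependent K v) : ∃ μ : Fin n → ℚ, μ ≠ 0 ∧ ∑ i, (μ i : K) • v i = 0 := by
  rw [Fintype.not_linearIndependent_iff] at hdep
  obtain ⟨lam, h1, j₀, h2⟩ := hdep
  let M : Matrix (Fin n) (Fin n) ℚ := Matrix.of g
  have hM : (M.map (algebraMap ℚ K)).det = 0 := by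
    rw [← Matrix.exists_mulVec_eq_zero_iff]
    refine ⟨lam, fun h => h2 (congrFun h j₀), ?_⟩
    funext i
    have h3 : tr (v i * ∑ j, lam j • v j) = 0 := by rw [h1, mul_zero, map_zero]
    rw [Finset.mul_sum, map_sum] at h3
    simp only [Matrix.mulVec, dotProduct, Matrix.map_apply, M, Matrix.of_apply, Pi.zero_apply,
      eq_ratCast]
    rw [← h3]
    refine Finset.sum_congr rfl fun j _ => ?_
    rw [mul_smul_comm, map_smul, hg, smul_eq_mul, mul_comm]
  have hM' : M.det = 0 := by
    have h4 : (algebraMap ℚ K) M.det = 0 := by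
      rw [RingHom.map_det]
      exact hM
    exact (map_eq_zero (algebraMap ℚ K)).1 h4
  obtain ⟨μ, hμ, h5⟩ := Matrix.exists_mulVec_eq_zero_iff.2 hM'
  refine ⟨μ, hμ, hpos μ ?_⟩
  rw [Finset.sum_mul, map_sum]
  refine Finset.sum_eq_zero fun i _ => ?_
  rw [Finset.mul_sum, map_sum]
  have h6 : ∑ j, tr ((μ i : K) • v i * (μ j : K) • v j) = (μ i : K) * ((M.mulVec μ) i : ℚ) := by
    simp only [Matrix.mulVec, dotProduct, M, Matrix.of_apply, Rat.cast_sum, Rat.cast_mul,
      Finset.mul_sum]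
    refine Finset.sum_congr rfl fun j _ => ?_
    rw [smul_mul_smul_comm, map_smul, hg, smul_eq_mul]
    ring
  rw [h6, h5, Pi.zero_apply, Rat.cast_zero, mul_zero]

end gram

namespace Theory

variable {W : Theory K}

section blocks

variable {ι : Type} [Fintype ι] [DecidableEq ι] (C : ι → W.Var) {e : ℕ}

/-- the blocks of an endomorphism of the direct sum -/
def blk (y : Module.End K (∀ i, W.V (C i))) (i j : ι) : W.V (C j) →ₗ[K] W.V (C i) :=
  LinearMap.proj i ∘ₗ y ∘ₗ LinearMap.single K (fun i => W.V (C i)) j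

theorem blk_apply (y : Module.End K (∀ i, W.V (C i))) (i j : ι) (x : W.V (C j)) :
    blk C y i j x = y (Pi.single j x) i := rfl

theorem apply_eq_sum (y : Module.End K (∀ i, W.V (C i))) (u : ∀ i, W.V (C i)) (i : ι) :
    y u i = ∑ j, blk C y i j (u j) := by
  have h : u = ∑ j, Pi.single j (u j) := (Finset.univ_sum_single u).symm
  conv_lhs => rw [h]
  rw [map_sum, Finset.sum_apply]
  rfl

theorem blk_mul (y z : Module.End K (∀ i, W.V (C i))) (i k : ι) :
    blk C (y * z) i k = ∑ j, blk C y i j ∘ₗ blk C z j k := by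
  ext x
  rw [blk_apply, Module.End.mul_apply, apply_eq_sum, LinearMap.sum_apply]
  rfl

theorem blk_ext {y z : Module.End K (∀ i, W.V (C i))} (h : ∀ i j, blk C y i j = blk C z i j) :
    y = z := by
  apply LinearMap.ext
  intro u
  funext i
  rw [apply_eq_sum, apply_eq_sum]
  exact Finset.sum_congr rfl fun j _ => by rw [h i j]

theorem blk_smul (q : K) (y : Module.End K (∀ i, W.V (C i))) (i j : ι) :
    blk C (q • y) i j = q • blk C y i j := rfl

theorem trace_eq (y : Module.End K (∀ i, W.V (C i))) :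
    LinearMap.trace K (∀ i, W.V (C i)) y = ∑ i, LinearMap.trace K (W.V (C i)) (blk C y i i) := by
  have h1 : y = ∑ i, (y ∘ₗ LinearMap.single K (fun i => W.V (C i)) i) ∘ₗ LinearMap.proj i := by
    apply LinearMap.ext
    intro u
    rw [LinearMap.sum_apply]
    have h : u = ∑ j, Pi.single j (u j) := (Finset.univ_sum_single u).symm
    conv_lhs => rw [h, map_sum]
    rfl
  conv_lhs => rw [h1]
  rw [map_sum]
  refine Finset.sum_congr rfl fun i _ => ?_
  rw [LinearMap.trace_comp_comm']
  rfl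

/-- endomorphisms whose blocks are correspondences of degree zero between the varieties `C i`,
zero on the cohomology of the wrong parity, and zero unless `m i = s (m j)` -/
def GG (e : ℕ) (m : ι → ℤ) (s : ℤ → ℤ) : AddSubgroup (Module.End K (∀ i, W.V (C i))) where
  carrier := {y | ∀ i j, blk C y i j ∈ W.cyc (C j) (C i) e ∧ W.KO e (blk C y i j) ∧
    (m i ≠ s (m j) → blk C y i j = 0)}
  add_mem' := by
    intro y z hy hz i j
    have e1 : blk C (y + z) i j = blk C y i j + blk C z i j := rfl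
    rw [e1]
    refine ⟨add_mem (hy i j).1 (hz i j).1, fun k hk x hx => ?_, fun h => ?_⟩
    · rw [LinearMap.add_apply, (hy i j).2.1 k hk x hx, (hz i j).2.1 k hk x hx, add_zero]
    · rw [(hy i j).2.2 h, (hz i j).2.2 h, add_zero]
  zero_mem' := by
    intro i j
    have e1 : blk C (0 : Module.End K (∀ i, W.V (C i))) i j = 0 := rfl
    rw [e1]
    exact ⟨zero_mem _, fun _ _ _ _ => rfl, fun _ => rfl⟩
  neg_mem' := by
    intro y hy i j
    have e1 : blk C (-y) i j = - blk C y i j := rfl
    rw [e1]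
    refine ⟨neg_mem (hy i j).1, fun k hk x hx => ?_, fun h => ?_⟩
    · rw [LinearMap.neg_apply, (hy i j).2.1 k hk x hx, neg_zero]
    · rw [(hy i j).2.2 h, neg_zero]

theorem GG_smul {m : ι → ℤ} {s : ℤ → ℤ} {y : Module.End K (∀ i, W.V (C i))}
    (hy : y ∈ GG C e m s) (q : ℚ) : (q : K) • y ∈ GG C e m s := by
  intro i j
  rw [blk_smul]
  refine ⟨W.rat _ _ _ q _ (hy i j).1, fun k hk x hx => ?_, fun h => ?_⟩
  · rw [LinearMap.smul_apply, (hy i j).2.1 k hk x hx, smul_zero]
  · rw [(hy i j).2.2 h, smul_zero]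

theorem KO_comp {X Y Z : W.Var} {f : W.V X →ₗ[K] W.V Y} (g : W.V Y →ₗ[K] W.V Z)
    (hf : W.KO e f) : W.KO e (g ∘ₗ f) := by
  intro i hi x hx
  rw [LinearMap.comp_apply, hf i hi x hx, map_zero]

theorem GG_mul (hC : ∀ i, W.dim (C i) = e) {m : ι → ℤ} {s t : ℤ → ℤ}
    {y z : Module.End K (∀ i, W.V (C i))} (hy : y ∈ GG C e m s) (hz : z ∈ GG C e m t) :
    y * z ∈ GG C e m (s ∘ t) := by
  intro i k
  rw [blk_mul]
  refine ⟨sum_mem fun j _ => ?_, fun l hl x hx => ?_, fun h => ?_⟩
  · have := W.comp _ _ _ _ _ _ (hz j k).1 _ (hy i j).1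
    rw [hC j] at this
    simpa using this
  · rw [LinearMap.sum_apply]
    exact Finset.sum_eq_zero fun j _ => KO_comp _ (hz j k).2.1 l hl x hx
  · refine Finset.sum_eq_zero fun j _ => ?_
    by_cases h1 : m j = t (m k)
    · rw [(hy i j).2.2 ?_, LinearMap.zero_comp]
      rw [h1]
      exact h
    · rw [(hz j k).2.2 h1, LinearMap.comp_zero]

/-- the pairing on the direct sum -/
def BB (u v : ∀ i, W.V (C i)) : K := ∑ i, W.pair (C i) (u i) (v i)

/-- self-adjoint endomorphisms -/
def SA (y : Module.End K (∀ i, W.V (C i))) : Prop := ∀ u v, BB C (y u) v = BB C u (y v)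

theorem SA_add {y z : Module.End K (∀ i, W.V (C i))} (hy : SA C y) (hz : SA C z) :
    SA C (y + z) := by
  intro u v
  have h1 := hy u v
  have h2 := hz u v
  simp only [BB] at h1 h2 ⊢
  simp only [LinearMap.add_apply, Pi.add_apply, map_add, Finset.sum_add_distrib, h1, h2]

theorem SA_smul {y : Module.End K (∀ i, W.V (C i))} (hy : SA C y) (q : K) :
    SA C (q • y) := by
  intro u v
  have h1 := hy u v
  simp only [BB] at h1 ⊢
  simp only [LinearMap.smul_apply, Pi.smul_apply, map_smul, smul_eq_mul, ← Finset.mul_sum, h1]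

theorem SA_zero : SA C (0 : Module.End K (∀ i, W.V (C i))) := by
  intro u v
  simp [BB]

theorem SA_one : SA C (1 : Module.End K (∀ i, W.V (C i))) := fun _ _ => rfl

theorem SA_pow {y : Module.End K (∀ i, W.V (C i))} (hy : SA C y) (n : ℕ) : SA C (y ^ n) := by
  induction n with
  | zero => rw [pow_zero]; exact SA_one C
  | succ n ih =>
    intro u v
    rw [pow_succ', Module.End.mul_apply, hy, ih, ← Module.End.mul_apply, ← pow_succ, pow_succ']

theorem SA_sum {κ : Type} (s : Finset κ) (f : κ → Module.End K (∀ i, W.V (C i)))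
    (h : ∀ a ∈ s, SA C (f a)) : SA C (∑ a ∈ s, f a) := by
  classical
  induction s using Finset.induction_on with
  | empty => rw [Finset.sum_empty]; exact SA_zero C
  | insert a s ha ih =>
    rw [Finset.sum_insert ha]
    exact SA_add C (h a (Finset.mem_insert_self a s))
      (ih fun b hb => h b (Finset.mem_insert_of_mem hb))

theorem blk_adj {y : Module.End K (∀ i, W.V (C i))} (hy : SA C y) (i j : ι) (x : W.V (C i))
    (v : W.V (C j)) : W.pair (C j) (blk C y j i x) v = W.pair (C i) x (blk C y i j v) := by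
  have h := hy (Pi.single i x) (Pi.single j v)
  simp only [BB] at h
  rw [Finset.sum_eq_single j (fun k _ hk => by rw [Pi.single_eq_of_ne hk, map_zero])
      (fun h => absurd (Finset.mem_univ _) h),
    Finset.sum_eq_single i (fun k _ hk => by
      rw [Pi.single_eq_of_ne hk, map_zero, LinearMap.zero_apply])
      (fun h => absurd (Finset.mem_univ _) h),
    Pi.single_eq_same, Pi.single_eq_same] at h
  exact h

variable [CharZero K]

theorem pos_sq (hW : W.Pos e) (hC : ∀ i, W.dim (C i) = e) {m : ι → ℤ} {s : ℤ → ℤ}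
    {y : Module.End K (∀ i, W.V (C i))} (hy : y ∈ GG C e m s) (hs : SA C y) :
    ∃ q : ℚ, 0 ≤ q ∧ LinearMap.trace K (∀ i, W.V (C i)) (y * y) = (q : K) ∧
      (q = 0 → y = 0) := by
  have key : ∀ i j, ∃ q : ℚ, 0 ≤ q ∧ LinearMap.trace K (W.V (C i))
      (blk C y i j ∘ₗ blk C y j i) = (q : K) ∧ (q = 0 → blk C y j i = 0) := fun i j =>
    hW (C i) (C j) (hC i) (hC j) _ (hy j i).1 (hy j i).2.1 _ (hy i j).1
      (fun x v => blk_adj C hs i j x v)
  choose q hq0 hq1 hq2 using key
  refine ⟨∑ i, ∑ j, q i j, Finset.sum_nonneg fun i _ => Finset.sum_nonneg fun j _ => hq0 i j,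
    ?_, fun h => ?_⟩
  · rw [trace_eq C]
    push_cast
    refine Finset.sum_congr rfl fun i _ => ?_
    rw [blk_mul, map_sum]
    exact Finset.sum_congr rfl fun j _ => hq1 i j
  · apply blk_ext
    intro j i
    have h1 : ∑ j, q i j = 0 := (Finset.sum_eq_zero_iff_of_nonneg
      (f := fun i => ∑ j, q i j) (s := Finset.univ) (fun i _ =>
      Finset.sum_nonneg fun j _ => hq0 i j)).1 h i (Finset.mem_univ _)
    have h2 : q i j = 0 := (Finset.sum_eq_zero_iff_of_nonneg (f := fun j => q i j)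
      (s := Finset.univ) (fun j _ => hq0 i j)).1 h1 j (Finset.mem_univ _)
    rw [hq2 i j h2]
    rfl

theorem sq_zero (hW : W.Pos e) (hC : ∀ i, W.dim (C i) = e) {m : ι → ℤ} {s : ℤ → ℤ}
    {y : Module.End K (∀ i, W.V (C i))} (hy : y ∈ GG C e m s) (hs : SA C y)
    (h : LinearMap.trace K (∀ i, W.V (C i)) (y * y) = 0) : y = 0 := by
  obtain ⟨q, _, h1, h2⟩ := pos_sq C hW hC hy hs
  apply h2
  rw [h] at h1
  exact_mod_cast h1.symm

end blocks

end Theory

end Pool.Agent.H6.CP
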