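import Pool.Agent.H6.CP.Pos

set_option autoImplicit false

set_option linter.unusedSectionVars false

/-!
# Curves and the conjecture C⁺: quasi-inverse of a self-adjoint correspondence
-/

namespace Pool.Agent.H6.CP

open Polynomial

variable {K : Type} [Field K] [CharZero K]

namespace Theory

variable {W : Theory K} {ι : Type} [Fintype ι] [DecidableEq ι] (C : ι → W.Var) {e : ℕ}

/-- the reflection -/
def refl (D : ℤ) (n : ℤ) : ℤ := D - n

theorem refl_refl (D : ℤ) : refl D ∘ refl D = id := by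
  funext n
  simp [refl]

theorem pow_mem (hC : ∀ i, W.dim (C i) = e) {m : ι → ℤ} {D : ℤ}
    {c : Module.End K (∀ i, W.V (C i))} (hc : c ∈ GG C e m (refl D)) (k : ℕ) :
    c ^ (2 * k + 1) ∈ GG C e m (refl D) ∧ c ^ (2 * k + 2) ∈ GG C e m id := by
  induction k with
  | zero =>
    refine ⟨by simpa using hc, ?_⟩
    have := GG_mul C hC hc hc
    rw [refl_refl] at this
    rw [mul_zero, zero_add, pow_two]
    exact this
  | succ k ih =>
    have h1 := GG_mul C hC ih.2 hc
    rw [Function.id_comp, ← pow_succ] at h1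
    have h2 := GG_mul C hC h1 hc
    rw [refl_refl, ← pow_succ] at h2
    exact ⟨h1, h2⟩

/-- evaluation of rational polynomials -/
noncomputable def pe (T : Module.End K (∀ i, W.V (C i))) : ℚ[X] →+* Module.End K (∀ i, W.V (C i)) :=
  (aeval (R := K) T).toRingHom.comp (mapRingHom (algebraMap ℚ K))

theorem pe_eq (T : Module.End K (∀ i, W.V (C i))) (P : ℚ[X]) :
    pe C T P = ∑ i ∈ Finset.range ((P.map (algebraMap ℚ K)).natDegree + 1),
      ((P.coeff i : ℚ) : K) • T ^ i := by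
  have h : pe C T P = aeval T (P.map (algebraMap ℚ K)) := rfl
  rw [h, aeval_eq_sum_range]
  refine Finset.sum_congr rfl fun i _ => ?_
  rw [coeff_map, eq_ratCast]

theorem pe_X (T : Module.End K (∀ i, W.V (C i))) : pe C T X = T := by
  have h : pe C T X = aeval T ((X : ℚ[X]).map (algebraMap ℚ K)) := rfl
  rw [h, map_X, aeval_X]

theorem pe_C (T : Module.End K (∀ i, W.V (C i))) (q : ℚ) :
    pe C T (Polynomial.C q) = (q : K) • 1 := by
  have h : pe C T (Polynomial.C q) = aeval T ((Polynomial.C q).map (algebraMap ℚ K)) := rfl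
  rw [h, map_C, aeval_C, eq_ratCast, Algebra.algebraMap_eq_smul_one]

theorem commute_pe (c : Module.End K (∀ i, W.V (C i))) (P : ℚ[X]) :
    Commute c (pe C (c * c) P) := by
  rw [pe_eq]
  refine Commute.sum_right _ _ _ fun i _ => ?_
  refine Commute.smul_right ?_ _
  exact ((Commute.refl c).mul_right (Commute.refl c)).pow_right i

theorem odd_mem (hC : ∀ i, W.dim (C i) = e) {m : ι → ℤ} {D : ℤ}
    {c : Module.End K (∀ i, W.V (C i))} (hc : c ∈ GG C e m (refl D)) (hs : SA C c) (P : ℚ[X]) :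
    c * pe C (c * c) P ∈ GG C e m (refl D) ∧ SA C (c * pe C (c * c) P) := by
  have e1 : ∀ i : ℕ, ((P.coeff i : ℚ) : K) • (c * (c * c) ^ i) =
      ((P.coeff i : ℚ) : K) • c ^ (2 * i + 1) := by
    intro i
    rw [← pow_two, ← pow_mul, ← pow_succ']
  rw [pe_eq, Finset.mul_sum]
  simp only [mul_smul_comm]
  constructor
  · refine sum_mem fun i _ => ?_
    rw [e1]
    exact GG_smul C (pow_mem C hC hc i).1 _
  · refine SA_sum C _ _ fun i _ => ?_
    rw [e1]
    exact SA_smul C (SA_pow C hs _) _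

theorem even_mem (hC : ∀ i, W.dim (C i) = e) {m : ι → ℤ} {D : ℤ}
    {c : Module.End K (∀ i, W.V (C i))} (hc : c ∈ GG C e m (refl D)) (hs : SA C c) (P : ℚ[X]) :
    c * c * pe C (c * c) P ∈ GG C e m id ∧ SA C (c * c * pe C (c * c) P) := by
  have e1 : ∀ i : ℕ, ((P.coeff i : ℚ) : K) • (c * c * (c * c) ^ i) =
      ((P.coeff i : ℚ) : K) • c ^ (2 * i + 2) := by
    intro i
    rw [← pow_two, ← pow_mul, ← pow_add, add_comm]
  rw [pe_eq, Finset.mul_sum]
  simp only [mul_smul_comm]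
  constructor
  · refine sum_mem fun i _ => ?_
    rw [e1]
    exact GG_smul C (pow_mem C hC hc i).2 _
  · refine SA_sum C _ _ fun i _ => ?_
    rw [e1]
    exact SA_smul C (SA_pow C hs _) _

/-- a rational polynomial relation -/
theorem relation (hW : W.Pos e) (hC : ∀ i, W.dim (C i) = e) {m : ι → ℤ} {D : ℤ}
    {c : Module.End K (∀ i, W.V (C i))} (hc : c ∈ GG C e m (refl D)) (hs : SA C c) :
    ∃ P : ℚ[X], P ≠ 0 ∧ c * c * pe C (c * c) P = 0 := by
  obtain ⟨n, hn⟩ : ∃ n, n = Module.finrank K (Module.End K (∀ i, W.V (C i))) + 1 := ⟨_, rfl⟩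
  have hcp : ∀ k : ℕ, ∃ s, c ^ (k + 1) ∈ GG C e m s := by
    intro k
    induction k with
    | zero => exact ⟨_, by simpa using hc⟩
    | succ k ih =>
      obtain ⟨s, h⟩ := ih
      exact ⟨_, by rw [pow_succ]; exact GG_mul C hC h hc⟩
  have hg : ∀ i j : Fin n, ∃ q : ℚ, LinearMap.trace K (∀ i, W.V (C i))
      ((c * c * (c * c) ^ (i : ℕ)) * (c * c * (c * c) ^ (j : ℕ))) = (q : K) := by
    intro i j
    obtain ⟨s, h⟩ := hcp ((i : ℕ) + j + 1)
    obtain ⟨q, _, h1, _⟩ := pos_sq C hW hC h (SA_pow C hs _)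
    refine ⟨q, ?_⟩
    rw [← h1]
    congr 1
    rw [← pow_two, ← pow_mul, ← pow_mul, ← pow_add, ← pow_add, ← pow_add, ← pow_add]
    congr 1
    ring
  choose g hg using hg
  have hpe : ∀ μ : Fin n → ℚ, ∑ i, (μ i : K) • (c * c * (c * c) ^ (i : ℕ)) =
      c * c * pe C (c * c) (∑ i : Fin n, Polynomial.C (μ i) * X ^ (i : ℕ)) := by
    intro μ
    rw [map_sum, Finset.mul_sum]
    refine Finset.sum_congr rfl fun i _ => ?_
    rw [map_mul, map_pow, pe_X, pe_C, smul_mul_assoc, one_mul, mul_smul_comm]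
  obtain ⟨μ, hμ, h⟩ := gram (LinearMap.trace K (∀ i, W.V (C i)))
    (fun i : Fin n => c * c * (c * c) ^ (i : ℕ)) g hg (fun μ h => by
      rw [hpe] at h ⊢
      have h2 := even_mem C hC hc hs (∑ i : Fin n, Polynomial.C (μ i) * X ^ (i : ℕ))
      exact sq_zero C hW hC h2.1 h2.2 h) (fun hli => by
      have h3 : n ≤ Module.finrank K (Module.End K (∀ i, W.V (C i))) := by
        simpa using hli.fintype_card_le_finrank
      omega)
  refine ⟨∑ i : Fin n, Polynomial.C (μ i) * X ^ (i : ℕ), ?_, by rw [← hpe]; exact h⟩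
  intro h0
  apply hμ
  funext k
  have h3 := congrArg (fun Q => Q.coeff (k : ℕ)) h0
  simp only [finsetSum_coeff, coeff_C_mul, coeff_X_pow, coeff_zero] at h3
  rw [Finset.sum_eq_single k (fun j _ hj => by
      rw [if_neg (fun h => hj (Fin.ext h.symm)), mul_zero])
    (fun h => absurd (Finset.mem_univ _) h), if_pos rfl, mul_one] at h3
  exact h3

/-- the quasi-inverse -/
theorem quasi (hW : W.Pos e) (hC : ∀ i, W.dim (C i) = e) {m : ι → ℤ} {D : ℤ}
    {c : Module.End K (∀ i, W.V (C i))} (hc : c ∈ GG C e m (refl D)) (hs : SA C c) :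
    ∃ b ∈ GG C e m (refl D), c * b * c = c := by
  obtain ⟨P, hP, h⟩ := relation C hW hC hc hs
  -- `P = X ^ k * U` with `U.coeff 0 ≠ 0`
  obtain ⟨k, U, hU, rfl⟩ : ∃ (k : ℕ) (U : ℚ[X]), U.coeff 0 ≠ 0 ∧ P = X ^ k * U := by
    obtain ⟨U, h1, h2⟩ := exists_eq_pow_rootMultiplicity_mul_and_not_dvd P hP 0
    refine ⟨_, U, ?_, by rw [map_zero, sub_zero] at h1; exact h1⟩
    intro h3
    apply h2
    rw [map_zero, sub_zero]
    exact X_dvd_iff.2 h3
  obtain ⟨u, hu⟩ : ∃ u, u = U.coeff 0 := ⟨_, rfl⟩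
  obtain ⟨R, hR⟩ : ∃ R : ℚ[X], Polynomial.C u⁻¹ * U = 1 - X * R := by
    refine ⟨- (Polynomial.C u⁻¹ * divX U), ?_⟩
    conv_lhs => rw [← divX_mul_X_add U, ← hu]
    rw [mul_add, ← Polynomial.C_mul, inv_mul_cancel₀ (by rw [hu]; exact hU), Polynomial.C_1]
    ring
  obtain ⟨T, hT⟩ : ∃ T, T = c * c := ⟨_, rfl⟩
  have h1 : T * pe C T (X ^ k * (1 - X * R)) = 0 := by
    rw [← hR]
    have : X ^ k * (Polynomial.C u⁻¹ * U) = Polynomial.C u⁻¹ * (X ^ k * U) := by ring
    rw [this, map_mul (pe C T) (Polynomial.C u⁻¹), pe_C, smul_mul_assoc, one_mul, mul_smul_comm,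
      hT, h, smul_zero]
  have h2 : ∀ k : ℕ, T * pe C T (X ^ k * (1 - X * R)) = 0 → T * pe C T (1 - X * R) = 0 := by
    intro k
    induction k with
    | zero => intro h; simpa using h
    | succ k ih =>
      intro h
      apply ih
      have h3 := even_mem C hC hc hs (X ^ k * (1 - X * R))
      rw [← hT] at h3
      refine sq_zero C hW hC h3.1 h3.2 ?_
      have hXm : ∀ B : ℚ[X], pe C T (X * B) = T * pe C T B := fun B => by
        rw [map_mul, pe_X]
      have hcT : ∀ B : ℚ[X], T * pe C T B = pe C T B * T := fun B => by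
        rw [← hXm, mul_comm X B, map_mul, pe_X]
      have e1 : T * pe C T (X ^ k * (1 - X * R)) * (T * pe C T (X ^ k * (1 - X * R))) =
          pe C T (X ^ k * (1 - X * R)) * (T * pe C T (X ^ (k + 1) * (1 - X * R))) := by
        have e2 : (X ^ (k + 1) * (1 - X * R) : ℚ[X]) = X * (X ^ k * (1 - X * R)) := by ring
        rw [e2, hXm]
        conv_lhs => rw [hcT (X ^ k * (1 - X * R)), ← hcT (X ^ k * (1 - X * R))]
        rw [hcT (X ^ k * (1 - X * R))]
        simp only [mul_assoc]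
      rw [e1, h, mul_zero, map_zero]
  have h3 := h2 k h1
  have h4 := odd_mem C hC hc hs (1 - X * R)
  have h5 : c * pe C (c * c) (1 - X * R) = 0 := by
    refine sq_zero C hW hC h4.1 h4.2 ?_
    have hcm := commute_pe C c (1 - X * R)
    have e1 : c * pe C (c * c) (1 - X * R) * (c * pe C (c * c) (1 - X * R)) =
        pe C (c * c) (1 - X * R) * (c * c * pe C (c * c) (1 - X * R)) := by
      rw [hcm.eq]
      simp only [mul_assoc]
      rw [hcm.eq]
    rw [e1, ← hT, h3, mul_zero, map_zero]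
  refine ⟨c * pe C (c * c) R, (odd_mem C hC hc hs R).1, ?_⟩
  rw [map_sub, map_one, map_mul, pe_X, mul_sub, mul_one, sub_eq_zero] at h5
  have hcm := commute_pe C c R
  calc c * (c * pe C (c * c) R) * c = c * (c * (pe C (c * c) R * c)) := by
        simp only [mul_assoc]
    _ = c * (c * c * pe C (c * c) R) := by rw [← hcm.eq]; simp only [mul_assoc]
    _ = c := h5.symm

end Theory

end Pool.Agent.H6.CP
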