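import Pool.Agent.H6.CP.Defs

set_option autoImplicit false

/-!
# Zero-cycles and the conjecture C⁺
-/

namespace Pool.Agent.H6.CP

variable {K : Type} [Field K]

namespace Theory

variable (W : Theory K)

/-- every cycle of dimension `m` on `X × Y` factors through varieties of dimension `m` (for smooth
proper varieties over a perfect field this is de Jong's theorem on alterations: a subvariety of
dimension `m` of `X × Y` is dominated by a smooth proper variety `T` of dimension `m`) -/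
def Alterations : Prop :=
  ∀ (X Y : W.Var) (m : ℤ), ∀ f ∈ W.cyc X Y m, f ∈ AddSubgroup.closure
    {f : W.V X →ₗ[K] W.V Y | ∃ T : W.Var, (W.dim T : ℤ) = m ∧
      ∃ h ∈ W.cyc X T m, ∃ g ∈ W.cyc T Y m, f = g ∘ₗ h}

/-- the correspondences of `X` which are supported on `V × X` for a closed subset `V` of dimension
smaller than `dim X`, expressed by factorisation through varieties `T` of dimension smaller than
`dim X` -/
def Small (X : W.Var) : AddSubgroup (W.V X →ₗ[K] W.V X) :=
  AddSubgroup.closure {f | ∃ T : W.Var, W.dim T < W.dim X ∧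
    ∃ h ∈ W.cyc X T (W.dim T), ∃ g ∈ W.cyc T X (W.dim X), f = g ∘ₗ h}

/-- the correspondences of `X` which factor through varieties satisfying `C⁺` -/
def Through (X : W.Var) : AddSubgroup (W.V X →ₗ[K] W.V X) :=
  AddSubgroup.closure {f | ∃ Y : W.Var, W.Cplus Y ∧ ∃ m n : ℤ, m + n - W.dim Y = W.dim X ∧
    ∃ h ∈ W.cyc X Y m, ∃ g ∈ W.cyc Y X n, f = g ∘ₗ h}

variable {W}

theorem ext_gr {X Y : W.Var} {f g : W.V X →ₗ[K] W.V Y} (h : ∀ i, ∀ x ∈ W.gr X i, f x = g x) :
    f = g := by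
  have h1 : (⨆ i, W.gr X i) = ⊤ := (W.internal X).submodule_iSup_eq_top
  have h2 : (⨆ i, W.gr X i) ≤ LinearMap.eqLocus f g := iSup_le fun i x hx => h i x hx
  rw [h1] at h2
  exact LinearMap.ext fun x => h2 (Submodule.mem_top (x := x))

theorem ext_par {X Y : W.Var} {f g : W.V X →ₗ[K] W.V Y}
    (h : ∀ i, Even i → ∀ x ∈ W.gr X i, f x = g x)
    (h' : ∀ i, Odd i → ∀ x ∈ W.gr X i, f x = g x) : f = g := by
  apply ext_gr
  intro i x hx
  rcases Int.even_or_odd i with hi | hi
  · exact h i hi x hx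
  · exact h' i hi x hx

/-- the parity of the degree is preserved -/
theorem even_shift {i m : ℤ} (hi : Even i) : Even (i + 2 * m) := by
  obtain ⟨k, hk⟩ := hi
  exact ⟨k + m, by omega⟩

theorem odd_shift {i m : ℤ} (hi : Odd i) : Odd (i + 2 * m) := by
  obtain ⟨k, hk⟩ := hi
  exact ⟨k + m, by omega⟩

/-- the maps with an algebraic even part -/
def alg (W : Theory K) (X : W.Var) : AddSubgroup (W.V X →ₗ[K] W.V X) where
  carrier := {f | ∃ e ∈ W.cyc X X (W.dim X), (∀ i, Even i → ∀ x ∈ W.gr X i, e x = f x) ∧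
    W.KillsOdd e}
  add_mem' := by
    rintro f g ⟨e, he, h1, h2⟩ ⟨e', he', h1', h2'⟩
    refine ⟨e + e', add_mem he he', fun i hi x hx => ?_, fun i hi x hx => ?_⟩
    · rw [LinearMap.add_apply, LinearMap.add_apply, h1 i hi x hx, h1' i hi x hx]
    · rw [LinearMap.add_apply, h2 i hi x hx, h2' i hi x hx, add_zero]
  zero_mem' := ⟨0, zero_mem _, fun _ _ _ _ => rfl, fun _ _ _ _ => rfl⟩
  neg_mem' := by
    rintro f ⟨e, he, h1, h2⟩
    refine ⟨-e, neg_mem he, fun i hi x hx => ?_, fun i hi x hx => ?_⟩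
    · rw [LinearMap.neg_apply, LinearMap.neg_apply, h1 i hi x hx]
    · rw [LinearMap.neg_apply, h2 i hi x hx, neg_zero]

/-- composites through a variety satisfying `C⁺` -/
theorem alg_through {X Y : W.Var} (hY : W.Cplus Y) {m n : ℤ}
    (hmn : m + n - W.dim Y = W.dim X) {h : W.V X →ₗ[K] W.V Y} (hh : h ∈ W.cyc X Y m)
    {g : W.V Y →ₗ[K] W.V X} (hg : g ∈ W.cyc Y X n) : g ∘ₗ h ∈ W.alg X := by
  obtain ⟨e, he, h1, h2⟩ := hY
  refine ⟨g ∘ₗ (e ∘ₗ h), ?_, fun i hi x hx => ?_, fun i hi x hx => ?_⟩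
  · have h3 := W.comp X Y Y m _ h hh e he
    have h4 := W.comp X Y X _ n _ h3 g hg
    have h5 : m + (W.dim Y : ℤ) - W.dim Y + n - W.dim Y = W.dim X := by omega
    rwa [h5] at h4
  · simp only [LinearMap.comp_apply]
    rw [h1 _ (even_shift hi) _ (W.deg X Y m h hh i x hx)]
  · simp only [LinearMap.comp_apply]
    rw [h2 _ (odd_shift hi) _ (W.deg X Y m h hh i x hx), map_zero]

theorem alg_killsOdd {X : W.Var} {b : W.V X →ₗ[K] W.V X} (hb : b ∈ W.cyc X X (W.dim X))
    (h : W.KillsOdd b) : b ∈ W.alg X := ⟨b, hb, fun _ _ _ _ => rfl, h⟩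

theorem alg_killsEven {X : W.Var} {c : W.V X →ₗ[K] W.V X}
    (h : W.KillsEven c) : c ∈ W.alg X :=
  ⟨0, zero_mem _, fun i hi x hx => (h i hi x hx).symm, fun _ _ _ _ => rfl⟩

theorem comp_mem {X : W.Var} {f g : W.V X →ₗ[K] W.V X} (hf : f ∈ W.cyc X X (W.dim X))
    (hg : g ∈ W.cyc X X (W.dim X)) : g ∘ₗ f ∈ W.cyc X X (W.dim X) := by
  have := W.comp X X X _ _ f hf g hg
  rwa [add_sub_cancel_right] at this

theorem small_le (X : W.Var) : W.Small X ≤ W.cyc X X (W.dim X) := by
  rw [Small, AddSubgroup.closure_le]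
  rintro f ⟨T, _, h, hh, g, hg, rfl⟩
  have := W.comp X T X _ _ h hh g hg
  rwa [add_sub_cancel_left] at this

theorem cplus_iff {X : W.Var} : W.Cplus X ↔ LinearMap.id ∈ W.alg X :=
  ⟨fun ⟨e, he, h1, h2⟩ => ⟨e, he, h1, h2⟩, fun ⟨e, he, h1, h2⟩ => ⟨e, he, h1, h2⟩⟩

/-- an adjoint of a small correspondence is small on the other side -/
theorem small_adj (hA : W.Alterations) {X : W.Var}
    (hlow : ∀ T : W.Var, W.dim T + 2 ≤ W.dim X → W.Cplus T) {z : W.V X →ₗ[K] W.V X}
    (hz : z ∈ W.Small X) : ∃ w ∈ W.cyc X X (W.dim X),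
      (∀ x y, W.pair X (z x) y = W.pair X x (w y)) ∧ ∀ z₁ ∈ W.Small X, z₁ ∘ₗ w ∈ W.alg X := by
  induction hz using AddSubgroup.closure_induction with
  | mem f hf =>
    obtain ⟨T₂, hT₂, h₂, hh₂, g₂, hg₂, rfl⟩ := hf
    obtain ⟨h₂', hh₂', k1, _⟩ := W.adj X T₂ _ h₂ hh₂
    obtain ⟨g₂', hg₂', k2, _⟩ := W.adj T₂ X _ g₂ hg₂
    refine ⟨h₂' ∘ₗ g₂', ?_, fun x y => ?_, ?_⟩
    · have := W.comp X T₂ X _ _ g₂' hg₂' h₂' hh₂'
      rwa [add_sub_cancel_right] at this
    · rw [LinearMap.comp_apply, LinearMap.comp_apply, k2, k1]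
    · intro z₁ hz₁
      induction hz₁ using AddSubgroup.closure_induction with
      | mem f₁ hf₁ =>
        obtain ⟨T₁, hT₁, h₁, hh₁, g₁, hg₁, rfl⟩ := hf₁
        have h3 := W.comp T₂ X T₁ _ _ h₂' hh₂' h₁ hh₁
        have h4 := hA T₂ T₁ _ _ h3
        have key : ∀ w ∈ AddSubgroup.closure {f : W.V T₂ →ₗ[K] W.V T₁ | ∃ T : W.Var,
            (W.dim T : ℤ) = (W.dim T₂ : ℤ) + W.dim T₁ - W.dim X ∧
            ∃ h ∈ W.cyc T₂ T ((W.dim T₂ : ℤ) + W.dim T₁ - W.dim X),
            ∃ g ∈ W.cyc T T₁ ((W.dim T₂ : ℤ) + W.dim T₁ - W.dim X), f = g ∘ₗ h},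
            g₁ ∘ₗ (w ∘ₗ g₂') ∈ W.alg X := by
          intro w hw
          induction hw using AddSubgroup.closure_induction with
          | mem f hf =>
            obtain ⟨T, hT, v, hv, u, hu, rfl⟩ := hf
            have h5 := W.comp X T₂ T _ _ g₂' hg₂' v hv
            have h6 := W.comp T T₁ X _ _ u hu g₁ hg₁
            have h7 := alg_through (hlow T (by omega)) (by omega) h5 h6
            rwa [LinearMap.comp_assoc] at h7 ⊢
          | zero =>
            rw [LinearMap.zero_comp, LinearMap.comp_zero]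
            exact zero_mem _
          | add f g _ _ hf hg =>
            rw [LinearMap.add_comp, LinearMap.comp_add]
            exact add_mem hf hg
          | neg f _ hf =>
            rw [LinearMap.neg_comp, LinearMap.comp_neg]
            exact neg_mem hf
        have h8 := key _ h4
        rwa [LinearMap.comp_assoc] at h8 ⊢
      | zero =>
        rw [LinearMap.zero_comp]
        exact zero_mem _
      | add f g _ _ hf hg =>
        rw [LinearMap.add_comp]
        exact add_mem hf hg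
      | neg f _ hf =>
        rw [LinearMap.neg_comp]
        exact neg_mem hf
  | zero =>
    refine ⟨0, zero_mem _, fun x y => by simp, fun z₁ _ => ?_⟩
    rw [LinearMap.comp_zero]
    exact zero_mem _
  | add f g _ _ hf hg =>
    obtain ⟨w, hw, h1, h2⟩ := hf
    obtain ⟨w', hw', h1', h2'⟩ := hg
    refine ⟨w + w', add_mem hw hw', fun x y => ?_, fun z₁ hz₁ => ?_⟩
    · rw [LinearMap.add_apply, map_add, LinearMap.add_apply, h1, h1', LinearMap.add_apply, map_add]
    · rw [LinearMap.comp_add]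
      exact add_mem (h2 z₁ hz₁) (h2' z₁ hz₁)
  | neg f _ hf =>
    obtain ⟨w, hw, h1, h2⟩ := hf
    refine ⟨-w, neg_mem hw, fun x y => ?_, fun z₁ hz₁ => ?_⟩
    · rw [LinearMap.neg_apply, map_neg, LinearMap.neg_apply, h1, LinearMap.neg_apply, map_neg]
    · rw [LinearMap.comp_neg]
      exact neg_mem (h2 z₁ hz₁)

/-- the adjoint of a map which kills the odd cohomology kills it, and similarly for even -/
theorem adj_killsOdd {X : W.Var} {b b' : W.V X →ₗ[K] W.V X} (hb : b ∈ W.cyc X X (W.dim X))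
    (h : W.KillsOdd b) (hadj : ∀ x y, W.pair X (b x) y = W.pair X x (b' y)) :
    W.KillsOdd b' := by
  intro j hj y hy
  apply W.pair_right
  intro x
  have h1 : LinearMap.flip (W.pair X) (b' y) = 0 := by
    have h2 : ∀ i, ∀ x ∈ W.gr X i, LinearMap.flip (W.pair X) (b' y) x = 0 := by
      intro i x hx
      rw [LinearMap.flip_apply, ← hadj]
      rcases Int.even_or_odd i with hi | hi
      · refine W.pair_deg X _ j ?_ _ (W.deg X X _ b hb i x hx) y hy
        have h3 : Odd (i + 2 * ((W.dim X : ℤ) - W.dim X) + j) :=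
          (even_shift hi).add_odd hj
        intro h4
        rw [h4] at h3
        exact (Int.not_even_iff_odd.2 h3) (even_two_mul _)
      · rw [h i hi x hx, map_zero, LinearMap.zero_apply]
    have h3 : (⨆ i, W.gr X i) ≤ LinearMap.ker (LinearMap.flip (W.pair X) (b' y)) :=
      iSup_le fun i x hx => LinearMap.mem_ker.2 (h2 i x hx)
    rw [(W.internal X).submodule_iSup_eq_top, top_le_iff, LinearMap.ker_eq_top] at h3
    exact h3
  have h2 := LinearMap.congr_fun h1 x
  rwa [LinearMap.flip_apply] at h2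

theorem adj_killsEven {X : W.Var} {b b' : W.V X →ₗ[K] W.V X} (hb : b ∈ W.cyc X X (W.dim X))
    (h : W.KillsEven b) (hadj : ∀ x y, W.pair X (b x) y = W.pair X x (b' y)) :
    W.KillsEven b' := by
  intro j hj y hy
  apply W.pair_right
  intro x
  have h1 : LinearMap.flip (W.pair X) (b' y) = 0 := by
    have h2 : ∀ i, ∀ x ∈ W.gr X i, LinearMap.flip (W.pair X) (b' y) x = 0 := by
      intro i x hx
      rw [LinearMap.flip_apply, ← hadj]
      rcases Int.even_or_odd i with hi | hi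
      · rw [h i hi x hx, map_zero, LinearMap.zero_apply]
      · refine W.pair_deg X _ j ?_ _ (W.deg X X _ b hb i x hx) y hy
        have h3 : Odd (i + 2 * ((W.dim X : ℤ) - W.dim X) + j) :=
          (odd_shift hi).add_even hj
        intro h4
        rw [h4] at h3
        exact (Int.not_even_iff_odd.2 h3) (even_two_mul _)
    have h3 : (⨆ i, W.gr X i) ≤ LinearMap.ker (LinearMap.flip (W.pair X) (b' y)) :=
      iSup_le fun i x hx => LinearMap.mem_ker.2 (h2 i x hx)
    rw [(W.internal X).submodule_iSup_eq_top, top_le_iff, LinearMap.ker_eq_top] at h3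
    exact h3
  have h2 := LinearMap.congr_fun h1 x
  rwa [LinearMap.flip_apply] at h2

theorem main_zero (hA : W.Alterations) {X : W.Var}
    (hlow : ∀ T : W.Var, W.dim T + 2 ≤ W.dim X → W.Cplus T) {b c : W.V X →ₗ[K] W.V X}
    (hb : b ∈ W.cyc X X (W.dim X)) (hc : c ∈ W.cyc X X (W.dim X)) (hb' : W.KillsOdd b)
    (hc' : W.KillsEven c) (hz : LinearMap.id - b - c ∈ W.Small X) : W.Cplus X := by
  rw [cplus_iff]
  obtain ⟨w, hw, w1, w2⟩ := small_adj hA hlow hz
  obtain ⟨bt, hbt, b1, _⟩ := W.adj X X _ b hb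
  obtain ⟨ct, hct, c1, _⟩ := W.adj X X _ c hc
  have hbt' := adj_killsOdd hb hb' b1
  have hct' := adj_killsEven hc hc' c1
  have hz' := small_le X hz
  have hone : bt + ct + w = LinearMap.id := by
    apply LinearMap.ext
    intro y
    rw [← sub_eq_zero]
    apply W.pair_right
    intro x
    rw [map_sub, LinearMap.add_apply, LinearMap.add_apply, map_add, map_add, ← b1, ← c1, ← w1]
    simp only [LinearMap.sub_apply, LinearMap.id_apply, map_sub]
    ring
  obtain ⟨z, hzz⟩ : ∃ z, z = LinearMap.id - b - c := ⟨_, rfl⟩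
  rw [← hzz] at hz w1 hz'
  have e : LinearMap.id = b + c + z ∘ₗ bt + z ∘ₗ ct + z ∘ₗ w := by
    have e1 : z = z ∘ₗ bt + z ∘ₗ ct + z ∘ₗ w := by
      rw [← LinearMap.comp_add, ← LinearMap.comp_add, hone, LinearMap.comp_id]
    have e2 : LinearMap.id = b + c + z := by
      rw [hzz]
      abel
    rw [e2]
    conv_lhs => rw [e1]
    abel
  rw [e]
  refine add_mem (add_mem (add_mem (add_mem (alg_killsOdd hb hb') (alg_killsEven hc')) ?_) ?_)
    (w2 z hz)
  · refine alg_killsOdd (comp_mem hbt hz') fun i hi x hx => ?_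
    rw [LinearMap.comp_apply, hbt' i hi x hx, map_zero]
  · refine alg_killsEven fun i hi x hx => ?_
    rw [LinearMap.comp_apply, hct' i hi x hx, map_zero]

theorem through_alg (X : W.Var) : W.Through X ≤ W.alg X := by
  rw [Through, AddSubgroup.closure_le]
  rintro f ⟨Y, hY, m, n, hmn, h, hh, g, hg, rfl⟩
  exact alg_through hY hmn hh hg

theorem through_cyc (X : W.Var) : W.Through X ≤ W.cyc X X (W.dim X) := by
  rw [Through, AddSubgroup.closure_le]
  rintro f ⟨Y, _, m, n, hmn, h, hh, g, hg, rfl⟩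
  have := W.comp X Y X _ _ h hh g hg
  rwa [hmn] at this

theorem tfae_zero (hA : W.Alterations) (X : W.Var)
    (hlow : ∀ T : W.Var, W.dim T + 2 ≤ W.dim X → W.Cplus T) :
    [W.Cplus X,
      ∃ b ∈ W.cyc X X (W.dim X), ∃ c ∈ W.cyc X X (W.dim X), W.KillsOdd b ∧ W.KillsEven c ∧
        LinearMap.id - b - c ∈ W.Small X,
      ∃ f ∈ W.Through X, LinearMap.id - f ∈ W.Small X].TFAE := by
  tfae_have 1 → 3 := by
    intro h
    refine ⟨LinearMap.id, ?_, by rw [sub_self]; exact zero_mem _⟩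
    apply AddSubgroup.subset_closure
    exact ⟨X, h, W.dim X, W.dim X, by omega, LinearMap.id, W.diag X, LinearMap.id, W.diag X,
      rfl⟩
  tfae_have 3 → 2 := by
    rintro ⟨f, hf, hz⟩
    obtain ⟨e, he, h1, h2⟩ := through_alg X hf
    refine ⟨e, he, f - e, sub_mem (through_cyc X hf) he, h2, fun i hi x hx => ?_, ?_⟩
    · rw [LinearMap.sub_apply, h1 i hi x hx, sub_self]
    · have : (LinearMap.id : W.V X →ₗ[K] W.V X) - e - (f - e) = LinearMap.id - f := by abel
      rwa [this]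
  tfae_have 2 → 1 := by
    rintro ⟨b, hb, c, hc, h1, h2, h3⟩
    exact main_zero hA hlow hb hc h1 h2 h3
  tfae_finish

end Theory

end Pool.Agent.H6.CP
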